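import Pool.Agent.D0H97.FT.Step

/-!
The bound for the heights.
-/

set_option autoImplicit false
set_option linter.unusedSectionVars false

namespace Pool.Agent.D0H97.FT

open NumberField IsDedekindDomain Height Filter Topology
open Pool.Agent.W180.OP (Pl av wt fv fv_support_finite wt_nonneg)
open Pool.Agent.K1H83.VN

variable {k : Type} [Field k] [NumberField k] {N n w r : ℕ}

theorem ht_nat (m : ℕ) : logHeight₁ (m : k) ≤ dg k * Real.log m := by
  rcases Nat.eq_zero_or_pos m with h0 | h0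
  · rw [h0, Nat.cast_zero, logHeight₁_zero]
    simp
  have hm1 : (1 : ℝ) ≤ m := by exact_mod_cast h0
  rw [logHeight₁_eq_logHeight, logHeight_split (Si k) hSi _ (v10 _)]
  have h1 : ho (Si k) ![(m : k), 1] ≤ 0 := by
    have h2 := dn_rat (k := k) (m : ℚ)
    rw [map_natCast] at h2
    unfold dn at h2
    refine h2.trans (le_of_eq ?_)
    simp
  have h2 : ∑ v ∈ Si k, wt v * Real.log (nm (av v) ![(m : k), 1]) = dg k * Real.log m := by
    unfold dg
    rw [Finset.sum_mul]
    refine Finset.sum_congr rfl fun v hv => ?_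
    obtain ⟨w, rfl⟩ := mem_Si hv
    rw [nm_pair, inf_nat, max_eq_left hm1]
  rw [h2]
  linarith

/-- points with coordinates which are polynomials in at most `c` elements of `A` -/
def Rp (A : Set ℕ) (E : Finset (Fin N →₀ ℕ)) (c : ℕ) (T : ℝ) (x : Fin (n + 1) → k) : Prop :=
  ∃ (a : Fin (n + 1) → (Fin N →₀ ℕ) → k) (s : Fin N → ℕ), (∀ i q, logHeight₁ (a i q) ≤ T) ∧
    (∀ j, s j ≠ 0 → s j ∈ A) ∧ (Finset.univ.filter fun j => s j ≠ 0).card ≤ c ∧
    ∀ i, x i = ∑ q ∈ E, a i q * ∏ j, (s j : k) ^ q j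

theorem ht_le (n : ℕ) (E : Finset (Fin N →₀ ℕ)) : ∃ C : ℝ, 0 < C ∧ ∀ (T ℓ : ℝ), 0 ≤ T → 0 ≤ ℓ →
    ∀ (x : Fin (n + 1) → k) (a : Fin (n + 1) → (Fin N →₀ ℕ) → k) (s : Fin N → ℕ),
      (∀ i q, logHeight₁ (a i q) ≤ T) → (∀ j, Real.log (s j) ≤ ℓ) →
      (∀ i, x i = ∑ q ∈ E, a i q * ∏ j, (s j : k) ^ q j) → logHeight x ≤ C * (1 + T + ℓ) := by
  classical
  set C1 : ℝ := totalWeight k * Real.log (E.card : ℝ) with hC1
  set C2 : ℝ := (E.card : ℝ) with hC2
  set C3 : ℝ := ∑ q ∈ E, ∑ j, (q j : ℝ) * dg k with hC3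
  have h1 : 0 ≤ C1 := mul_nonneg (Nat.cast_nonneg _) (Real.log_natCast_nonneg _)
  have h2 : 0 ≤ C2 := Nat.cast_nonneg _
  have hdg : 0 ≤ dg k := le_trans zero_le_one one_le_dg
  have h3 : 0 ≤ C3 := Finset.sum_nonneg fun q _ => Finset.sum_nonneg fun j _ =>
    mul_nonneg (Nat.cast_nonneg _) hdg
  refine ⟨((n : ℝ) + 1) * (C1 + C2 + C3 + 1), by positivity, ?_⟩
  intro T ℓ hT hℓ x a s ha hs hx
  have h4 : ∀ i, logHeight₁ (x i) ≤ (C1 + C2 + C3 + 1) * (1 + T + ℓ) := by
    intro i
    rw [hx i]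
    refine (logHeight₁_sum_le _ _).trans ?_
    have h5 : ∀ q ∈ E, logHeight₁ (a i q * ∏ j, (s j : k) ^ q j) ≤
        T + (∑ j, (q j : ℝ) * dg k) * ℓ := by
      intro q _
      refine (logHeight₁_mul_le _ _).trans (add_le_add (ha i q) ?_)
      refine (logHeight₁_prod_le _ _).trans ?_
      rw [Finset.sum_mul]
      refine Finset.sum_le_sum fun j _ => ?_
      rw [logHeight₁_pow, mul_assoc]
      refine mul_le_mul_of_nonneg_left ?_ (Nat.cast_nonneg _)
      exact (ht_nat (s j)).trans (mul_le_mul_of_nonneg_left (hs j) hdg)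
    have h6 : ∑ q ∈ E, logHeight₁ (a i q * ∏ j, (s j : k) ^ q j) ≤ C2 * T + C3 * ℓ := by
      refine (Finset.sum_le_sum h5).trans (le_of_eq ?_)
      rw [Finset.sum_add_distrib, Finset.sum_const, nsmul_eq_mul, ← Finset.sum_mul]
    have h7 : 0 ≤ C1 * (T + ℓ) + C2 * (1 + ℓ) + C3 * (1 + T) + (1 + T + ℓ) := by positivity
    calc _ ≤ C1 + (C2 * T + C3 * ℓ) := add_le_add le_rfl h6
      _ ≤ C1 + (C2 * T + C3 * ℓ) + (C1 * (T + ℓ) + C2 * (1 + ℓ) + C3 * (1 + T) +
          (1 + T + ℓ)) := by linarith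
      _ = _ := by ring
  calc logHeight x ≤ ∑ i, logHeight₁ (x i) := logHeight_le_sum x
    _ ≤ ∑ _i : Fin (n + 1), (C1 + C2 + C3 + 1) * (1 + T + ℓ) := Finset.sum_le_sum fun i _ => h4 i
    _ = _ := by
      rw [Finset.sum_const, Finset.card_univ, Fintype.card_fin, nsmul_eq_mul]
      push_cast
      ring

theorem Coherent.insert_one {A : Set ℕ} (hA : Coherent A) : Coherent (insert 1 A) := by
  intro ε hε
  obtain ⟨ℓ₀, h1⟩ := hA ε hε
  refine ⟨max ℓ₀ 0, fun ℓ hℓ => ?_⟩
  obtain ⟨d, hd⟩ := h1 ℓ ((le_max_left _ _).trans hℓ)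
  refine ⟨d, fun a ha hal => ?_⟩
  rcases ha with rfl | ha
  · refine ⟨0, 1, by simp, ?_⟩
    rw [Nat.cast_one, Real.log_one]
    exact mul_nonneg hε.le ((le_max_right _ _).trans hℓ)
  · exact hd a ha hal

/-- **The bound.** -/
theorem bound {A : Set ℕ} (hA : Coherent A) (GG : Set (MvPolynomial (Fin (n + 1)) k))
    (hGG : ∀ g ∈ GG, ∃ d, g.IsHomogeneous d)
    (F : Fin w → MvPolynomial (Fin (n + 1)) k) (hF : ∀ j, ∃ d, 0 < d ∧ (F j).IsHomogeneous d)
    (H : Fin r → MvPolynomial (Fin (n + 1)) k) (hH : ∀ l, ∃ d, (H l).IsHomogeneous d)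
    (hno : ¬ HasLine GG F H) (E : Finset (Fin N →₀ ℕ)) (c : ℕ) :
    ∃ C : ℝ, ∀ T : ℝ, 0 ≤ T → ∀ x : Fin (n + 1) → k, Rp A E c T x →
      (∀ g ∈ GG, g.eval x = 0) → (∃ j, (F j).eval x ≠ 0) → (∃ l, (H l).eval x ≠ 0) →
      -ho (Si k) (fun j => (F j).eval x) ≤ T → logHeight x ≤ C * (1 + T) := by
  classical
  obtain ⟨C1, hC1, hht⟩ := ht_le (k := k) n E
  induction c with
  | zero =>
    refine ⟨C1, fun T hT x hx _ _ _ _ => ?_⟩
    obtain ⟨a, s, ha, -, hc, hxs⟩ := hx
    have h1 : ∀ j, s j = 0 := by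
      intro j
      by_contra h
      have h2 : j ∈ Finset.univ.filter fun j => s j ≠ 0 :=
        Finset.mem_filter.2 ⟨Finset.mem_univ _, h⟩
      have h3 := Finset.card_pos.2 ⟨j, h2⟩
      omega
    have h2 := hht T 0 hT le_rfl x a s ha (fun j => by rw [h1 j]; simp) hxs
    simpa using h2
  | succ c ih =>
    obtain ⟨C', hC'⟩ := ih
    by_contra hcon
    push Not at hcon
    choose T hT x hR hg hFx hHx hgcd hlt using fun t : ℕ => hcon (t : ℝ)
    choose a s ha hsA hcard hx using hR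
    let ℓ : ℕ → ℝ := fun t => Real.log ((Finset.univ.sup (s t) : ℕ) : ℝ)
    have hsl : ∀ t j, s t j ≤ Finset.univ.sup (s t) := fun t j => Finset.le_sup (Finset.mem_univ j)
    have hℓ0 : ∀ t, 0 ≤ ℓ t := fun t => Real.log_natCast_nonneg _
    have hlogs : ∀ t j, Real.log (s t j) ≤ ℓ t := by
      intro t j
      rcases Nat.eq_zero_or_pos (s t j) with h | h
      · rw [h, Nat.cast_zero, Real.log_zero]
        exact hℓ0 t
      · exact Real.log_le_log (by exact_mod_cast h) (by exact_mod_cast hsl t j)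
    have hkey : ∀ t : ℕ, ((t : ℝ) - C1) * (1 + T t) < C1 * ℓ t := by
      intro t
      have h1 := hht (T t) (ℓ t) (hT t) (hℓ0 t) (x t) (a t) (s t) (ha t) (hlogs t) (hx t)
      have h2 := hlt t
      have h3 : (t : ℝ) * (1 + T t) < C1 * (1 + T t + ℓ t) := h2.trans_le h1
      have h4 : ((t : ℝ) - C1) * (1 + T t) = (t : ℝ) * (1 + T t) - C1 * (1 + T t) := by ring
      have h5 : C1 * (1 + T t + ℓ t) = C1 * (1 + T t) + C1 * ℓ t := by ring
      linarith
    have hlim : Tendsto ℓ (hyperfilter ℕ : Filter ℕ) atTop := by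
      refine Tendsto.mono_left ?_ Nat.hyperfilter_le_atTop
      have h1 : Tendsto (fun t : ℕ => ((t : ℝ) - C1) / C1) atTop atTop :=
        (tendsto_atTop_add_const_right _ (-C1) tendsto_natCast_atTop_atTop).atTop_div_const hC1
      refine tendsto_atTop_mono (fun t => ?_) h1
      rw [div_le_iff₀ hC1, mul_comm]
      rcases le_total (t : ℝ) C1 with h2 | h2
      · have := mul_nonneg hC1.le (hℓ0 t)
        linarith
      · have h3 : ((t : ℝ) - C1) * 1 ≤ ((t : ℝ) - C1) * (1 + T t) :=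
          mul_le_mul_of_nonneg_left (by linarith [hT t]) (by linarith)
        linarith [hkey t]
    let σ : Sc := ⟨hyperfilter ℕ, ℓ, hlim⟩
    have hT' : Sm σ T := by
      intro ε hε
      have h1 : ∀ᶠ t : ℕ in (hyperfilter ℕ : Filter ℕ), C1 / ε + C1 ≤ (t : ℝ) :=
        Nat.hyperfilter_le_atTop (tendsto_natCast_atTop_atTop.eventually_ge_atTop _)
      have h2 : ∀ᶠ t : ℕ in (hyperfilter ℕ : Filter ℕ), T t ≤ ε * ℓ t := by
        filter_upwards [h1] with t ht
        have h3 : C1 / ε * T t ≤ ((t : ℝ) - C1) * (1 + T t) := by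
          have h4 : C1 / ε ≤ (t : ℝ) - C1 := by linarith
          have h5 : 0 ≤ C1 / ε := by positivity
          exact mul_le_mul h4 (by linarith [hT t]) (hT t) (by linarith)
        have h4 : C1 / ε * T t ≤ C1 * ℓ t := h3.trans (hkey t).le
        have h5 : T t / ε ≤ ℓ t := by
          have h6 : C1 / ε * T t = C1 * (T t / ε) := by ring
          rw [h6] at h4
          exact le_of_mul_le_mul_left h4 hC1
        rw [div_le_iff₀ hε] at h5
        linarith
      exact h2
    have hpos : ∀ᶠ t in (σ.𝒰 : Filter ℕ), 0 < ℓ t := L_pos (σ := σ)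
    -- the zero pattern
    obtain ⟨Z, -, hZ⟩ := const_of_finite (σ := σ)
      (fun t => Finset.univ.filter fun j => s t j = 0) Set.univ Set.finite_univ
      (Eventually.of_forall fun _ => Set.mem_univ _)
    have hZj : ∀ᶠ t in (σ.𝒰 : Filter ℕ), ∀ j, s t j = 0 ↔ j ∈ Z := by
      filter_upwards [hZ] with t ht j
      rw [← ht, Finset.mem_filter]
      exact ⟨fun h => ⟨Finset.mem_univ _, h⟩, fun h => h.2⟩
    let s' : Fin N → ℕ → ℕ := fun j t => if s t j = 0 then 1 else s t j
    have hs'0 : ∀ j t, s' j t ≠ 0 := by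
      intro j t
      show (if s t j = 0 then 1 else s t j) ≠ 0
      split_ifs with h
      · exact one_ne_zero
      · exact h
    have hs'A : ∀ j t, s' j t ∈ insert 1 A := by
      intro j t
      show (if s t j = 0 then 1 else s t j) ∈ insert 1 A
      split_ifs with h
      · exact Set.mem_insert _ _
      · exact Set.mem_insert_of_mem _ (hsA t j h)
    have hs'L : ∀ᶠ t in (σ.𝒰 : Filter ℕ), ∀ j, Real.log (s' j t) ≤ σ.L t := by
      refine Eventually.of_forall fun t j => ?_
      show Real.log (((if s t j = 0 then 1 else s t j : ℕ)) : ℝ) ≤ ℓ t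
      split_ifs with h
      · rw [Nat.cast_one, Real.log_one]
        exact hℓ0 t
      · exact hlogs t j
    have hN : Nonempty (Fin N) := by
      by_contra hne
      rw [not_nonempty_iff] at hne
      obtain ⟨t, ht⟩ := hpos.exists
      have h1 : ℓ t = 0 := by
        show Real.log ((Finset.univ.sup (s t) : ℕ) : ℝ) = 0
        rw [Finset.univ_eq_empty, Finset.sup_empty]
        simp
      rw [h1] at ht
      exact lt_irrefl _ ht
    obtain ⟨j0, hj0⟩ := exists_max (σ := σ) fun (j : Fin N) t => (s t j : ℝ)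
    have hj0l : ∀ᶠ t in (σ.𝒰 : Filter ℕ), s t j0 ≠ 0 ∧ Real.log (s t j0) = ℓ t := by
      filter_upwards [hj0, hpos] with t h1 h2
      have h3 : Finset.univ.sup (s t) = s t j0 :=
        le_antisymm (Finset.sup_le fun j _ => by exact_mod_cast h1 j) (hsl t j0)
      have h4 : Real.log (s t j0) = ℓ t := by
        show _ = Real.log ((Finset.univ.sup (s t) : ℕ) : ℝ)
        rw [h3]
      refine ⟨fun h5 => ?_, h4⟩
      rw [h5, Nat.cast_zero, Real.log_zero] at h4
      linarith
    have hj0s : ¬ Sm σ fun t => Real.log (s' j0 t) := by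
      intro h
      obtain ⟨t, h1, ⟨h2, h3⟩, h4⟩ := ((h (1 / 2) (by norm_num)).and (hj0l.and hpos)).exists
      have h5 : s' j0 t = s t j0 := if_neg h2
      have h6 : Real.log (s' j0 t) ≤ 1 / 2 * ℓ t := h1
      rw [h5, h3] at h6
      linarith
    let E' : Finset (Fin N →₀ ℕ) := E.filter fun q => ∀ j ∈ Z, q j = 0
    have hE' : ∀ (t : ℕ) (b : (Fin N →₀ ℕ) → k) (s1 s2 : Fin N → ℕ), (∀ j ∈ Z, s1 j = 0) →
        (∀ j, j ∉ Z → s1 j = s2 j) → ∑ q ∈ E, b q * ∏ j, (s1 j : k) ^ q j =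
          ∑ q : E', b q.1 * ∏ j, (s2 j : k) ^ q.1 j := by
      intro t b s1 s2 h1 h2
      rw [Finset.sum_coe_sort E' fun q => b q * ∏ j, (s2 j : k) ^ q j, Finset.sum_filter]
      refine Finset.sum_congr rfl fun q _ => ?_
      split_ifs with h3
      · congr 1
        refine Finset.prod_congr rfl fun j _ => ?_
        by_cases hj : j ∈ Z
        · rw [h3 j hj, pow_zero, pow_zero]
        · rw [h2 j hj]
      · push Not at h3
        obtain ⟨j, hj, hqj⟩ := h3
        rw [Finset.prod_eq_zero (Finset.mem_univ j), mul_zero]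
        rw [h1 j hj, Nat.cast_zero, zero_pow hqj]
    have hstep := step (σ := σ) hA.insert_one GG hGG F hF H hH (fun i t => x t i)
      (fun i (q : E') t => a t i q.1) (fun q j => q.1 j) s' hs'0 hs'A hs'L
      (fun i q => hT'.mono (Eventually.of_forall fun t => ha t i q.1))
      (fun i => by
        filter_upwards [hZj] with t ht
        rw [hx t i]
        refine hE' t (a t i) (s t) (fun j => s' j t) (fun j hj => (ht j).2 hj) fun j hj => ?_
        show s t j = if s t j = 0 then 1 else s t j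
        rw [if_neg fun h => hj ((ht j).1 h)])
      (fun g hgG t => hg t g hgG) (fun t => hFx t)
      (hT'.mono (Eventually.of_forall fun t => hgcd t)) (fun t => hHx t) j0 hj0s
    rcases hstep with h | ⟨J, hJ, hJx⟩
    · exact hno h
    have hlarge : ∀ᶠ t : ℕ in (σ.𝒰 : Filter ℕ), C' ≤ (t : ℝ) :=
      Nat.hyperfilter_le_atTop (tendsto_natCast_atTop_atTop.eventually_ge_atTop _)
    obtain ⟨t, h1, h2, h3, h4, -⟩ := (hJx.and (hZj.and (hj0l.and hlarge))).exists.imp
      fun t h => (⟨h.1, h.2.1, h.2.2.1, h.2.2.2, trivial⟩ : _ ∧ _ ∧ _ ∧ _ ∧ True)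
    have h5 : Rp A E c (T t) (x t) := by
      refine ⟨a t, fun j => if j ∈ J then 0 else s t j, ha t, ?_, ?_, ?_⟩
      · intro j hj
        have h6 : (if j ∈ J then 0 else s t j) ≠ 0 := hj
        split_ifs at h6 with h7
        · exact absurd rfl h6
        · show (if j ∈ J then 0 else s t j) ∈ A
          rw [if_neg h7]
          exact hsA t j h6
      · have h6 : (Finset.univ.filter fun j => (if j ∈ J then 0 else s t j) ≠ 0) ⊆
            (Finset.univ.filter fun j => s t j ≠ 0).erase j0 := by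
          intro j hj
          have h7 := (Finset.mem_filter.1 hj).2
          rw [Finset.mem_erase, Finset.mem_filter]
          by_cases hjJ : j ∈ J
          · rw [if_pos hjJ] at h7
            exact absurd rfl h7
          · rw [if_neg hjJ] at h7
            exact ⟨fun h8 => hjJ (h8 ▸ hJ), Finset.mem_univ _, h7⟩
        have h7 := Finset.card_le_card h6
        have h9 : j0 ∈ Finset.univ.filter fun j => s t j ≠ 0 :=
          Finset.mem_filter.2 ⟨Finset.mem_univ _, h3.1⟩
        rw [Finset.card_erase_of_mem h9] at h7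
        have h8 := hcard t
        show (Finset.univ.filter fun j => (if j ∈ J then 0 else s t j) ≠ 0).card ≤ c
        omega
      · intro i
        have h6 := h1 i
        rw [h6]
        symm
        refine hE' t (a t i) _ _ (fun j hj => ?_) fun j hj => ?_
        · by_cases hjJ : j ∈ J
          · rw [if_pos hjJ]
          · rw [if_neg hjJ]
            exact (h2 j).2 hj
        · by_cases hjJ : j ∈ J
          · rw [if_pos hjJ, if_pos hjJ]
          · rw [if_neg hjJ, if_neg hjJ]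
            show s t j = if s t j = 0 then 1 else s t j
            rw [if_neg fun h => hj ((h2 j).1 h)]
    have h6 := hC' (T t) (hT t) (x t) h5 (hg t) (hFx t) (hHx t) (hgcd t)
    have h7 := hlt t
    have h8 : C' * (1 + T t) ≤ t * (1 + T t) :=
      mul_le_mul_of_nonneg_right h4 (by linarith [hT t])
    linarith

end Pool.Agent.D0H97.FT
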