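import Mathlib

/-!
Coherent sets of positive integers, for instance the factorials and the powers of an integer.
-/

set_option autoImplicit false
set_option linter.unusedSectionVars false

namespace Pool.Agent.D0H97.FT

open Filter Topology

/-- For all `ε` and all large `ℓ` there is `d` such that every `a ∈ A` with `log a ≤ ℓ` is a product
of a power of `d` and a number with logarithm at most `ε ℓ`. -/
def Coherent (A : Set ℕ) : Prop :=
  ∀ ε : ℝ, 0 < ε → ∃ ℓ₀ : ℝ, ∀ ℓ : ℝ, ℓ₀ ≤ ℓ → ∃ d : ℕ, ∀ a ∈ A, Real.log a ≤ ℓ →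
    ∃ e r : ℕ, a = d ^ e * r ∧ Real.log r ≤ ε * ℓ

theorem Coherent.mono {A B : Set ℕ} (h : Coherent A) (hB : B ⊆ A) : Coherent B := by
  intro ε hε
  obtain ⟨ℓ₀, h1⟩ := h ε hε
  refine ⟨ℓ₀, fun ℓ hℓ => ?_⟩
  obtain ⟨d, hd⟩ := h1 ℓ hℓ
  exact ⟨d, fun a ha => hd a (hB ha)⟩

/-- products of powers -/
theorem den_bound {N : ℕ} (s e r : Fin N → ℕ) (d : ℕ) (hs : ∀ j, s j ≠ 0)
    (h : ∀ j, s j = d ^ e j * r j) (a : Fin N → ℤ) (δ ℓ : ℝ) (hℓ : 0 ≤ δ * ℓ)
    (hr : ∀ j, Real.log (r j) ≤ δ * ℓ) (hlow : -∑ j, (a j : ℝ) * Real.log (s j) ≤ δ * ℓ) :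
    Real.log ((∏ j, (s j : ℚ) ^ a j).den : ℝ) ≤ (2 * (∑ j, |(a j : ℝ)|) + 1) * (δ * ℓ) := by
  classical
  -- reduction to positive `d`
  wlog hd : d ≠ 0 generalizing d e
  · have he : ∀ j, e j = 0 := by
      intro j
      by_contra h1
      apply hs j
      rw [h j, not_not.1 hd, zero_pow h1, zero_mul]
    exact this (fun _ => 0) 1 (fun j => by rw [h j, he j]; simp) one_ne_zero
  have hr0 : ∀ j, r j ≠ 0 := by
    intro j h1
    apply hs j
    rw [h j, h1, mul_zero]
  set E : ℤ := ∑ j, a j * e j with hE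
  set Pp : ℕ := ∏ j, r j ^ (a j).toNat with hPp
  set Pm : ℕ := ∏ j, r j ^ (-a j).toNat with hPm
  have hPm0 : Pm ≠ 0 := Finset.prod_ne_zero_iff.2 fun j _ => pow_ne_zero _ (hr0 j)
  have hdq : (d : ℚ) ≠ 0 := Nat.cast_ne_zero.2 hd
  have hq : (∏ j, (s j : ℚ) ^ a j) = (d : ℚ) ^ E * ((Pp : ℚ) / (Pm : ℚ)) := by
    have h1 : ∀ j, (s j : ℚ) ^ a j = (d : ℚ) ^ (a j * e j) *
        ((r j : ℚ) ^ (a j).toNat / (r j : ℚ) ^ (-a j).toNat) := by
      intro j
      have hrq : (r j : ℚ) ≠ 0 := Nat.cast_ne_zero.2 (hr0 j)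
      rw [h j]
      push_cast
      rw [mul_zpow, ← zpow_natCast (d : ℚ) (e j), ← zpow_mul, mul_comm (e j : ℤ)]
      congr 1
      rw [← zpow_natCast (r j : ℚ) (a j).toNat, ← zpow_natCast (r j : ℚ) (-a j).toNat,
        ← zpow_sub₀ hrq]
      congr 1
      omega
    rw [Finset.prod_congr rfl fun j _ => h1 j, Finset.prod_mul_distrib, Finset.prod_div_distrib]
    congr 1
    · have h2 : ∀ A : Finset (Fin N), ∏ j ∈ A, (d : ℚ) ^ (a j * e j) =
          (d : ℚ) ^ (∑ j ∈ A, a j * e j) := by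
        intro A
        induction A using Finset.induction_on with
        | empty => simp
        | insert b A hb ih => rw [Finset.prod_insert hb, Finset.sum_insert hb, ih, zpow_add₀ hdq]
      exact h2 _
    · rw [hPp, hPm]
      push_cast
      rfl
  set Q : ℕ := d ^ (-E).toNat * Pm with hQ
  have hQ0 : Q ≠ 0 := mul_ne_zero (pow_ne_zero _ hd) hPm0
  have hqQ : (∏ j, (s j : ℚ) ^ a j) = ((d ^ E.toNat * Pp : ℕ) : ℤ) / ((Q : ℕ) : ℤ) := by
    rw [hq, hQ]
    push_cast
    have h1 : (d : ℚ) ^ E = (d : ℚ) ^ E.toNat / (d : ℚ) ^ (-E).toNat := by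
      rw [← zpow_natCast (d : ℚ) E.toNat, ← zpow_natCast (d : ℚ) (-E).toNat, ← zpow_sub₀ hdq]
      congr 1
      omega
    rw [h1, div_mul_div_comm]
  have hdvd : (∏ j, (s j : ℚ) ^ a j).den ∣ Q := by
    rw [hqQ, ← Rat.divInt_eq_div]
    exact Int.natCast_dvd_natCast.1 (Rat.den_dvd _ _)
  have h1 : Real.log ((∏ j, (s j : ℚ) ^ a j).den : ℝ) ≤ Real.log (Q : ℝ) := by
    refine Real.log_le_log ?_ ?_
    · exact_mod_cast (∏ j, (s j : ℚ) ^ a j).den_pos
    · exact_mod_cast Nat.le_of_dvd (Nat.pos_of_ne_zero hQ0) hdvd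
  refine h1.trans ?_
  -- the size of `Q`
  have hlogs : ∀ j, Real.log (s j) = e j * Real.log d + Real.log (r j) := by
    intro j
    rw [h j]
    push_cast
    rw [Real.log_mul (pow_ne_zero _ (Nat.cast_ne_zero.2 hd)) (Nat.cast_ne_zero.2 (hr0 j)),
      Real.log_pow]
  have hlr : ∀ j, 0 ≤ Real.log (r j) := fun j => Real.log_natCast_nonneg _
  have hPmlog : Real.log (Pm : ℝ) ≤ (∑ j, |(a j : ℝ)|) * (δ * ℓ) := by
    rw [hPm]
    push_cast
    rw [Real.log_prod fun j _ => pow_ne_zero _ (Nat.cast_ne_zero.2 (hr0 j)), Finset.sum_mul]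
    refine Finset.sum_le_sum fun j _ => ?_
    rw [Real.log_pow]
    refine mul_le_mul ?_ (hr j) (hlr j) (abs_nonneg _)
    have h2 : (((-a j).toNat : ℕ) : ℤ) ≤ |a j| := by
      rcases abs_cases (a j) with ⟨h3, _⟩ | ⟨h3, _⟩ <;> omega
    have h3 : (((-a j).toNat : ℕ) : ℝ) ≤ ((|a j| : ℤ) : ℝ) := by exact_mod_cast h2
    rwa [Int.cast_abs] at h3
  have hE1 : -((E : ℤ) : ℝ) * Real.log d ≤ ((∑ j, |(a j : ℝ)|) + 1) * (δ * ℓ) := by
    have h2 : ((E : ℤ) : ℝ) * Real.log d = ∑ j, (a j : ℝ) * Real.log (s j) -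
        ∑ j, (a j : ℝ) * Real.log (r j) := by
      rw [hE]
      push_cast
      rw [Finset.sum_mul, ← Finset.sum_sub_distrib]
      refine Finset.sum_congr rfl fun j _ => ?_
      rw [hlogs j]
      ring
    have h3 : ∑ j, (a j : ℝ) * Real.log (r j) ≤ (∑ j, |(a j : ℝ)|) * (δ * ℓ) := by
      rw [Finset.sum_mul]
      refine Finset.sum_le_sum fun j _ => ?_
      calc (a j : ℝ) * Real.log (r j) ≤ |(a j : ℝ)| * Real.log (r j) :=
            mul_le_mul_of_nonneg_right (le_abs_self _) (hlr j)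
        _ ≤ _ := mul_le_mul_of_nonneg_left (hr j) (abs_nonneg _)
    have h4 : -((E : ℤ) : ℝ) * Real.log d = -(((E : ℤ) : ℝ) * Real.log d) := by ring
    rw [h4, h2]
    linarith
  have h5 : Real.log (Q : ℝ) = ((-E).toNat : ℝ) * Real.log d + Real.log (Pm : ℝ) := by
    rw [hQ]
    push_cast
    rw [Real.log_mul (pow_ne_zero _ (Nat.cast_ne_zero.2 hd)) (Nat.cast_ne_zero.2 hPm0),
      Real.log_pow]
  have h6 : ((-E).toNat : ℝ) * Real.log d ≤ ((∑ j, |(a j : ℝ)|) + 1) * (δ * ℓ) := by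
    rcases le_total E 0 with h7 | h7
    · have h8 : (((-E).toNat : ℕ) : ℤ) = -E := by omega
      have h9 : (((-E).toNat : ℕ) : ℝ) = -((E : ℤ) : ℝ) := by exact_mod_cast h8
      rw [h9]
      exact hE1
    · have h8 : (-E).toNat = 0 := by omega
      rw [h8, Nat.cast_zero, zero_mul]
      have : 0 ≤ ∑ j, |(a j : ℝ)| := Finset.sum_nonneg fun j _ => abs_nonneg _
      positivity
  rw [h5]
  linarith

/-- the powers of an integer -/
theorem coherent_powers (b : ℕ) : Coherent (Set.range fun m : ℕ => b ^ m) := by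
  intro ε hε
  refine ⟨0, fun ℓ hℓ => ⟨b, ?_⟩⟩
  rintro _ ⟨m, rfl⟩ -
  refine ⟨m, 1, by simp, ?_⟩
  rw [Nat.cast_one, Real.log_one]
  positivity

theorem log_fact_le (m : ℕ) : Real.log (m.factorial : ℝ) ≤ m * Real.log m := by
  rw [← Real.log_pow]
  refine Real.log_le_log (by exact_mod_cast m.factorial_pos) ?_
  exact_mod_cast Nat.factorial_le_pow m

theorem le_log_fact (m : ℕ) (hm : m ≠ 0) : m * Real.log m - m ≤ Real.log (m.factorial : ℝ) := by
  have h1 := Real.pow_div_factorial_le_exp (m : ℝ) (Nat.cast_nonneg m) m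
  have h2 : (0 : ℝ) < m.factorial := by exact_mod_cast m.factorial_pos
  have h3 : (0 : ℝ) < (m : ℝ) ^ m := by positivity
  have h4 := Real.log_le_log (div_pos h3 h2) h1
  rw [Real.log_div h3.ne' h2.ne', Real.log_pow, Real.log_exp] at h4
  linarith

theorem fact_pow_dvd (k m : ℕ) : k.factorial ^ (m / k) ∣ m.factorial := by
  have h1 := Nat.prod_factorial_dvd_factorial_sum (Finset.range (m / k)) fun _ => k
  simp only [Finset.prod_const, Finset.sum_const, Finset.card_range, smul_eq_mul] at h1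
  exact h1.trans (Nat.factorial_dvd_factorial (Nat.div_mul_le_self m k))

/-- the factorials -/
theorem coherent_factorials : Coherent (Set.range Nat.factorial) := by
  classical
  intro ε hε
  obtain ⟨c, hc⟩ := exists_nat_ge (2 / ε)
  obtain ⟨c1, hc1⟩ := exists_nat_ge (Real.exp 1 + 1)
  set c' : ℕ := c + 1 with hc'
  have hc'0 : (0 : ℝ) < c' := by positivity
  have hcε : 1 / (c' : ℝ) ≤ ε / 2 := by
    rw [div_le_iff₀ hc'0]
    have h1 : 2 / ε ≤ c' := by
      rw [hc']
      push_cast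
      linarith
    rw [div_le_iff₀ hε] at h1
    linarith
  -- the bound for `M`
  set Λ : ℝ := 2 / ε * (Real.log (2 * c') + 1 + ε) with hΛ
  obtain ⟨M0, hM0⟩ := exists_nat_ge (Real.exp Λ + 2 * c' * (Real.exp 1 + 1) + 1)
  refine ⟨Real.log (M0.factorial : ℝ), fun ℓ hℓ => ?_⟩
  set M : ℕ := Nat.findGreatest (fun n => Real.log (n.factorial : ℝ) ≤ ℓ) (max M0 ⌈Real.exp ℓ⌉₊)
    with hM
  have hML : Real.log (M.factorial : ℝ) ≤ ℓ :=
    Nat.findGreatest_spec (P := fun n => Real.log (n.factorial : ℝ) ≤ ℓ)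
      (le_max_left M0 ⌈Real.exp ℓ⌉₊) hℓ
  have hM0M : M0 ≤ M := Nat.le_findGreatest (le_max_left _ _) hℓ
  have hmax : ∀ m : ℕ, Real.log (m.factorial : ℝ) ≤ ℓ → m ≤ M := by
    intro m hm
    refine Nat.le_findGreatest (le_trans ?_ (le_max_right _ _)) hm
    have h1 : (m : ℝ) ≤ m.factorial := by exact_mod_cast Nat.self_le_factorial m
    have h2 : (0 : ℝ) < m.factorial := by exact_mod_cast m.factorial_pos
    rw [Real.log_le_iff_le_exp h2] at hm
    exact_mod_cast (h1.trans hm).trans (Nat.le_ceil _)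
  have hMr : Real.exp Λ + 2 * c' * (Real.exp 1 + 1) + 1 ≤ (M : ℝ) :=
    hM0.trans (by exact_mod_cast hM0M)
  have he1 := Real.exp_pos 1
  have heΛ := Real.exp_pos Λ
  have hMpos : (0 : ℝ) < M := by
    have : 0 ≤ 2 * (c' : ℝ) * (Real.exp 1 + 1) := by positivity
    linarith
  have hM1 : M ≠ 0 := by
    intro h
    rw [h, Nat.cast_zero] at hMpos
    exact lt_irrefl _ hMpos
  set k : ℕ := M / c' with hk
  -- the size of `k`
  have hk1 : (M : ℝ) / (2 * c') ≤ k := by
    have h1 : M < (M / c' + 1) * c' := by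
      have := Nat.lt_div_mul_add (a := M) (b := c') (Nat.succ_pos c)
      rw [add_mul, one_mul]
      exact this
    have h2 : (M : ℝ) < (k + 1) * c' := by exact_mod_cast h1
    have h3 : 2 * (c' : ℝ) ≤ M := by
      have : 2 * (c' : ℝ) * 1 ≤ 2 * c' * (Real.exp 1 + 1) := by
        refine mul_le_mul_of_nonneg_left ?_ (by positivity)
        linarith
      linarith
    rw [div_le_iff₀ (by positivity)]
    nlinarith
  have hk2 : (k : ℝ) ≤ M / c' := Nat.cast_div_le
  have hkE : Real.exp 1 ≤ k := by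
    refine le_trans ?_ hk1
    rw [le_div_iff₀ (by positivity)]
    have : (0 : ℝ) < 2 * c' := by positivity
    nlinarith
  have hkpos : (0 : ℝ) < k := he1.trans_le hkE
  have hk0 : k ≠ 0 := by
    intro h
    rw [h, Nat.cast_zero] at hkpos
    exact lt_irrefl _ hkpos
  have hlogk : 1 ≤ Real.log k := by
    rw [Real.le_log_iff_exp_le hkpos]
    exact hkE
  have hlogMk : Real.log M - Real.log k ≤ Real.log (2 * c') := by
    have h1 : Real.log ((M : ℝ) / (2 * c')) ≤ Real.log k := Real.log_le_log (by positivity) hk1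
    rw [Real.log_div hMpos.ne' (by positivity)] at h1
    linarith
  have hlogM : Λ ≤ Real.log M := by
    rw [Real.le_log_iff_exp_le hMpos]
    have : 0 ≤ 2 * (c' : ℝ) * (Real.exp 1 + 1) := by positivity
    linarith
  have hkM : (k : ℝ) ≤ M := by exact_mod_cast Nat.div_le_self M c'
  refine ⟨k.factorial, ?_⟩
  rintro _ ⟨m, rfl⟩ hm
  have hmM : m ≤ M := hmax m hm
  obtain ⟨r, hr⟩ := fact_pow_dvd k m
  refine ⟨m / k, r, hr, ?_⟩
  have hf0 : (k.factorial : ℝ) ≠ 0 := by exact_mod_cast k.factorial_ne_zero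
  have hr0 : (r : ℝ) ≠ 0 := by
    intro h
    have h1 : r = 0 := by exact_mod_cast h
    rw [h1, mul_zero] at hr
    exact m.factorial_ne_zero hr
  have hlogr : Real.log r = Real.log (m.factorial : ℝ) -
      ((m / k : ℕ) : ℝ) * Real.log (k.factorial : ℝ) := by
    have h1 := congrArg (fun x : ℕ => Real.log (x : ℝ)) hr
    push_cast at h1
    rw [Real.log_mul (pow_ne_zero _ hf0) hr0, Real.log_pow] at h1
    linarith
  rw [hlogr]
  have hmMr : (m : ℝ) ≤ M := by exact_mod_cast hmM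
  -- upper bound for `m !`
  have h1 : Real.log (m.factorial : ℝ) ≤ m * Real.log M := by
    refine (log_fact_le m).trans ?_
    rcases Nat.eq_zero_or_pos m with h0 | h0
    · rw [h0]
      simp
    · refine mul_le_mul_of_nonneg_left ?_ (Nat.cast_nonneg _)
      exact Real.log_le_log (by exact_mod_cast h0) hmMr
  -- lower bound for the power
  have h2 : ((m : ℝ) - k) * (Real.log k - 1) ≤
      ((m / k : ℕ) : ℝ) * Real.log (k.factorial : ℝ) := by
    have h3 := le_log_fact k hk0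
    have h4 : (m : ℝ) < (((m / k : ℕ) : ℝ) + 1) * k := by
      have := Nat.lt_div_mul_add (a := m) (b := k) (Nat.pos_of_ne_zero hk0)
      have h5 : m < (m / k + 1) * k := by
        rw [add_mul, one_mul]
        exact this
      exact_mod_cast h5
    have h6 : (m : ℝ) - k ≤ ((m / k : ℕ) : ℝ) * k := by linarith
    have h7 : 0 ≤ ((m / k : ℕ) : ℝ) := Nat.cast_nonneg _
    calc ((m : ℝ) - k) * (Real.log k - 1) ≤ ((m / k : ℕ) : ℝ) * k * (Real.log k - 1) :=
          mul_le_mul_of_nonneg_right h6 (by linarith)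
      _ = ((m / k : ℕ) : ℝ) * (k * Real.log k - k) := by ring
      _ ≤ _ := mul_le_mul_of_nonneg_left h3 h7
  have h8 := le_log_fact M hM1
  have hm0 : (0 : ℝ) ≤ m := Nat.cast_nonneg _
  have hlc : 0 ≤ Real.log (2 * c') := by
    refine Real.log_nonneg ?_
    have : (1 : ℝ) ≤ c' := by
      rw [hc']
      push_cast
      linarith [Nat.cast_nonneg (α := ℝ) c]
    linarith
  have hlogM0 : 0 ≤ Real.log M := by linarith [Real.log_le_log hkpos hkM]
  -- the estimate
  have h9 : Real.log (m.factorial : ℝ) - ((m / k : ℕ) : ℝ) * Real.log (k.factorial : ℝ) ≤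
      M * (Real.log (2 * c') + 1) + M / c' * Real.log M := by
    have e1 : (m : ℝ) * Real.log M - ((m : ℝ) - k) * (Real.log k - 1) =
        m * (Real.log M - Real.log k) + m + k * (Real.log k - 1) := by ring
    have e2 : (m : ℝ) * (Real.log M - Real.log k) ≤ M * Real.log (2 * c') := by
      calc (m : ℝ) * (Real.log M - Real.log k) ≤ m * Real.log (2 * c') :=
            mul_le_mul_of_nonneg_left hlogMk hm0
        _ ≤ _ := mul_le_mul_of_nonneg_right hmMr hlc
    have e3 : (k : ℝ) * (Real.log k - 1) ≤ M / c' * Real.log M := by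
      refine mul_le_mul hk2 ?_ (by linarith) (by positivity)
      have := Real.log_le_log hkpos hkM
      linarith
    linarith
  refine h9.trans ?_
  have h10 : ε * ((M : ℝ) * Real.log M - M) ≤ ε * ℓ :=
    mul_le_mul_of_nonneg_left (h8.trans hML) hε.le
  refine le_trans ?_ h10
  have h11 : (M : ℝ) / c' * Real.log M ≤ M * (ε / 2 * Real.log M) := by
    have : (M : ℝ) / c' * Real.log M = M * (1 / c' * Real.log M) := by ring
    rw [this]
    exact mul_le_mul_of_nonneg_left (mul_le_mul_of_nonneg_right hcε hlogM0) hMpos.le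
  have h12 : Real.log (2 * c') + 1 + ε ≤ ε / 2 * Real.log M := by
    have h13 : ε / 2 * Λ = Real.log (2 * c') + 1 + ε := by
      rw [hΛ]
      field_simp
    rw [← h13]
    exact mul_le_mul_of_nonneg_left hlogM (by positivity)
  have h14 := mul_le_mul_of_nonneg_left h12 hMpos.le
  calc (M : ℝ) * (Real.log (2 * c') + 1) + M / c' * Real.log M
      ≤ M * (Real.log (2 * c') + 1) + M * (ε / 2 * Real.log M) := by linarith
    _ = M * (Real.log (2 * c') + 1 + ε) - ε * M + M * (ε / 2 * Real.log M) := by ring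
    _ ≤ M * (ε / 2 * Real.log M) - ε * M + M * (ε / 2 * Real.log M) := by linarith
    _ = ε * ((M : ℝ) * Real.log M - M) := by ring

end Pool.Agent.D0H97.FT
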