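import Pool.Agent.D0H97.FT.Spec
import Pool.Agent.D0H85.SP.Conv

/-!
Integral points on lines; the equivalence.
-/

set_option autoImplicit false
set_option linter.unusedSectionVars false

namespace Pool.Agent.D0H97.FT

open NumberField IsDedekindDomain Height Filter Topology
open scoped LinearAlgebra.Projectivization
open Pool.Agent.W180.OP (Pl av wt fv fv_support_finite wt_nonneg)
open Pool.Agent.K1H83.VN
open Pool.Agent.D0H85.SP (poly_zero eval_eval₂ finite_proj)

/-- all lines over all algebraically closed fields -/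
def LinesIn {K : Type} [Field K] {n w r : ℕ} (G : Set (MvPolynomial (Fin (n + 1)) K))
    (F : Fin w → MvPolynomial (Fin (n + 1)) K) (H : Fin r → MvPolynomial (Fin (n + 1)) K) : Prop :=
  ∀ (Ω : Type) [Field Ω] [IsAlgClosed Ω] (ψ : K →+* Ω) (P : Fin (n + 1) → Polynomial Ω),
    LineTo G F ψ P → NonconstantL P → InsideL H ψ P

/-- all lines over the algebraic closure -/
def LinesInAlg {K : Type} [Field K] {n w r : ℕ} (G : Set (MvPolynomial (Fin (n + 1)) K))
    (F : Fin w → MvPolynomial (Fin (n + 1)) K) (H : Fin r → MvPolynomial (Fin (n + 1)) K) : Prop :=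
  ∀ P : Fin (n + 1) → Polynomial (AlgebraicClosure K),
    LineTo G F (algebraMap K (AlgebraicClosure K)) P → NonconstantL P →
      InsideL H (algebraMap K (AlgebraicClosure K)) P

/-- the logarithm of the norm of the greatest common divisor -/
noncomputable def gcdHeight {L : Type} [Field L] [NumberField L] {w : ℕ} (y : Fin w → L) : ℝ :=
  ∑ᶠ v : HeightOneSpectrum (𝓞 L), -Real.log (⨆ j, FinitePlace.mk v (y j))

/-- coordinates which are polynomials in elements of `A` -/
def PolyIn {L : Type} [Field L] [NumberField L] (A : Set ℕ) (N : ℕ) (T : ℝ) {n : ℕ}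
    (x : Fin (n + 1) → L) : Prop :=
  ∃ (Φ : Fin (n + 1) → MvPolynomial (Fin N) L) (s : Fin N → ℕ), (∀ j, s j ∈ A) ∧
    (∀ i, (Φ i).totalDegree ≤ N) ∧ (∀ i m, logHeight₁ ((Φ i).coeff m) ≤ T) ∧
    ∀ i, x i = MvPolynomial.aeval (fun j => (s j : L)) (Φ i)

/-- nearly integral points with coordinates which are polynomials in elements of `A` -/
def IsAPoint {K : Type} [Field K] {n w r : ℕ} (A : Set ℕ) (G : Set (MvPolynomial (Fin (n + 1)) K))
    (F : Fin w → MvPolynomial (Fin (n + 1)) K) (H : Fin r → MvPolynomial (Fin (n + 1)) K)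
    (L : Type) [Field L] [NumberField L] [Algebra K L] (N : ℕ) (T : ℝ)
    (P : ℙ L (Fin (n + 1) → L)) : Prop :=
  ∃ (x : Fin (n + 1) → L) (hx : x ≠ 0), P = Projectivization.mk L x hx ∧
    (∀ g ∈ G, MvPolynomial.aeval x g = 0) ∧ (∃ j, MvPolynomial.aeval x (F j) ≠ 0) ∧
    (∃ l, MvPolynomial.aeval x (H l) ≠ 0) ∧ PolyIn A N T x ∧
    gcdHeight (fun j => MvPolynomial.aeval x (F j)) ≤ T

/-- heights -/
def HBound {K : Type} [Field K] {n w r : ℕ} (A : Set ℕ) (G : Set (MvPolynomial (Fin (n + 1)) K))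
    (F : Fin w → MvPolynomial (Fin (n + 1)) K) (H : Fin r → MvPolynomial (Fin (n + 1)) K) : Prop :=
  ∀ (L : Type) [Field L] [NumberField L] [Algebra K L] (N : ℕ), ∃ C : ℝ, ∀ T : ℝ, 0 ≤ T →
    ∀ P : ℙ L (Fin (n + 1) → L), IsAPoint A G F H L N T P → P.logHeight ≤ C * (1 + T)

/-- finiteness -/
def FinAll {K : Type} [Field K] {n w r : ℕ} (A : Set ℕ) (G : Set (MvPolynomial (Fin (n + 1)) K))
    (F : Fin w → MvPolynomial (Fin (n + 1)) K) (H : Fin r → MvPolynomial (Fin (n + 1)) K) : Prop :=
  ∀ (L : Type) [Field L] [NumberField L] [Algebra K L] (N : ℕ) (T : ℝ),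
    {P | IsAPoint A G F H L N T P}.Finite

section gcd

variable {L : Type} [Field L] [NumberField L]

theorem gcd_eq {w : ℕ} (y : Fin w → L) : gcdHeight y = -ho (Si L) y := by
  unfold gcdHeight ho
  rw [← finsum_neg_distrib]
  refine finsum_congr fun v => ?_
  unfold lo
  rw [if_neg (inr_Si v)]
  rfl

/-- all monomials of degree at most `N` -/
noncomputable def Eall (N : ℕ) : Finset (Fin N →₀ ℕ) :=
  (Finsupp.finite_of_degree_le (σ := Fin N) N).toFinset

theorem PolyIn.rp {A : Set ℕ} {N : ℕ} {T : ℝ} {n : ℕ} {x : Fin (n + 1) → L}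
    (h : PolyIn A N T x) : Rp A (Eall N) N T x := by
  classical
  obtain ⟨Φ, s, hs, hd, hc, hx⟩ := h
  refine ⟨fun i q => (Φ i).coeff q, s, hc, fun j _ => hs j, ?_, fun i => ?_⟩
  · refine (Finset.card_le_univ _).trans ?_
    rw [Fintype.card_fin]
  · rw [hx i, MvPolynomial.aeval_eq_eval, MvPolynomial.eval_eq']
    refine Finset.sum_subset (fun q hq => ?_) fun q _ hq => ?_
    · unfold Eall
      rw [Set.Finite.mem_toFinset]
      show q.degree ≤ N
      exact (MvPolynomial.le_totalDegree hq).trans (hd i)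
    · rw [MvPolynomial.notMem_support_iff.1 hq, zero_mul]

end gcd

section bound

variable {K : Type} [Field K] {n w r : ℕ} (G : Set (MvPolynomial (Fin (n + 1)) K))
  (F : Fin w → MvPolynomial (Fin (n + 1)) K) (H : Fin r → MvPolynomial (Fin (n + 1)) K)

theorem hbound {A : Set ℕ} (hA : Coherent A) (hG : ∀ g ∈ G, ∃ d, g.IsHomogeneous d)
    (hF : ∀ j, ∃ d, 0 < d ∧ (F j).IsHomogeneous d)
    (hH : ∀ l, ∃ d, (H l).IsHomogeneous d) (hc : LinesIn G F H) : HBound A G F H := by
  classical
  intro L _ _ _ N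
  have hmap : ∀ (g : MvPolynomial (Fin (n + 1)) K) (y : Fin (n + 1) → L),
      MvPolynomial.eval y (MvPolynomial.map (algebraMap K L) g) = MvPolynomial.aeval y g := by
    intro g y
    rw [MvPolynomial.eval_map, MvPolynomial.aeval_def]
  have hno : ¬ HasLine ((MvPolynomial.map (algebraMap K L)) '' G)
      (fun j => MvPolynomial.map (algebraMap K L) (F j))
      (fun l => MvPolynomial.map (algebraMap K L) (H l)) := by
    rintro ⟨Ω, _, _, ψ, Q, h1, h2, t, l, hl⟩
    have he : ∀ (g : MvPolynomial (Fin (n + 1)) K) (y : Fin (n + 1) → Ω),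
        (MvPolynomial.map (algebraMap K L) g).eval₂ ψ y = g.eval₂ (ψ.comp (algebraMap K L)) y := by
      intro g y
      rw [MvPolynomial.eval₂_map]
    have h3 := hc Ω (ψ.comp (algebraMap K L)) Q (by
      intro s
      obtain ⟨h4, j, hj⟩ := h1 s
      refine ⟨fun g hg => ?_, j, ?_⟩
      · rw [← he]
        exact h4 _ ⟨g, hg, rfl⟩
      · rw [← he]
        exact hj) h2 t l
    rw [he] at hl
    exact hl h3
  obtain ⟨C, hC⟩ := bound (k := L) hA ((MvPolynomial.map (algebraMap K L)) '' G) (by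
      rintro _ ⟨g, hg, rfl⟩
      obtain ⟨d, hd⟩ := hG g hg
      exact ⟨d, hd.map _⟩)
    (fun j => MvPolynomial.map (algebraMap K L) (F j)) (fun j => by
      obtain ⟨d, hd0, hd⟩ := hF j
      exact ⟨d, hd0, hd.map _⟩)
    (fun l => MvPolynomial.map (algebraMap K L) (H l)) (fun l => by
      obtain ⟨d, hd⟩ := hH l
      exact ⟨d, hd.map _⟩) hno (Eall N) N
  refine ⟨C, fun T hT P hP => ?_⟩
  obtain ⟨x, hx, rfl, h1, ⟨j, hj⟩, ⟨l, hl⟩, h4, h5⟩ := hP
  rw [Projectivization.logHeight_mk]
  refine hC T hT x h4.rp ?_ ⟨j, ?_⟩ ⟨l, ?_⟩ ?_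
  · rintro _ ⟨g, hg, rfl⟩
    rw [hmap]
    exact h1 g hg
  · rw [hmap]
    exact hj
  · rw [hmap]
    exact hl
  · rw [gcd_eq] at h5
    simp only [hmap]
    exact h5

theorem fin_of_hbound {A : Set ℕ} (h : HBound A G F H) : FinAll A G F H := by
  intro L _ _ _ N T
  obtain ⟨C, hC⟩ := h L N
  refine (finite_proj n (C * (1 + max T 0))).subset fun P hP => ?_
  refine hC (max T 0) (le_max_right _ _) P ?_
  obtain ⟨x, hx, h1, h2, h3, h4, ⟨Φ, s, h5, h6, h7, h8⟩, h9⟩ := hP
  exact ⟨x, hx, h1, h2, h3, h4, ⟨Φ, s, h5, h6, fun i m => (h7 i m).trans (le_max_left _ _), h8⟩,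
    h9.trans (le_max_left _ _)⟩

end bound

section cert

variable {K : Type} [Field K] {n w r : ℕ} {G : Set (MvPolynomial (Fin (n + 1)) K)}
  {F : Fin w → MvPolynomial (Fin (n + 1)) K} {H : Fin r → MvPolynomial (Fin (n + 1)) K}

variable {L : Type} [Field L] {ψ : K →+* L} {P : Fin (n + 1) → Polynomial L}
  {B : Fin w → Polynomial L}

theorem LCert.eq_zero (h : LCert G F H ψ P B) {g : MvPolynomial (Fin (n + 1)) K} (hg : g ∈ G)
    (t : L) : g.eval₂ ψ (fun i => (P i).eval t) = 0 := by
  rw [← eval_eval₂, h.eqn g hg, Polynomial.eval_zero]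

theorem LCert.bezout (h : LCert G F H ψ P B) (t : L) :
    ∑ j, (B j).eval t * (F j).eval₂ ψ (fun i => (P i).eval t) = 1 := by
  have h1 := congrArg (Polynomial.eval t) h.bez
  rw [Polynomial.eval_finsetSum, Polynomial.eval_one] at h1
  rw [← h1]
  refine Finset.sum_congr rfl fun j _ => ?_
  rw [Polynomial.eval_mul, eval_eval₂]

theorem LCert.exists_ne (h : LCert G F H ψ P B) (t : L) :
    ∃ j, (F j).eval₂ ψ (fun i => (P i).eval t) ≠ 0 := by
  by_contra hno
  push Not at hno
  have h1 := h.bezout t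
  simp only [hno, mul_zero, Finset.sum_const_zero] at h1
  exact zero_ne_one h1

theorem LCert.lineTo (h : LCert G F H ψ P B) : LineTo G F ψ P :=
  fun t => ⟨fun _ hg => h.eq_zero hg t, h.exists_ne t⟩

/-- a change of the field -/
theorem LCert.map (h : LCert G F H ψ P B) {L' : Type} [Field L'] (φ : L →+* L') :
    LCert G F H (φ.comp ψ) (fun i => (P i).map φ) (fun j => (B j).map φ) := by
  have hg : ∀ g : MvPolynomial (Fin (n + 1)) K,
      g.eval₂ (Polynomial.C.comp (φ.comp ψ)) (fun i => (P i).map φ) =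
        (g.eval₂ (Polynomial.C.comp ψ) P).map φ := by
    intro g
    have h4 := MvPolynomial.hom_eval₂ g (Polynomial.C.comp ψ) (Polynomial.mapRingHom φ) P
    have h5 : (Polynomial.mapRingHom φ).comp (Polynomial.C.comp ψ) =
        Polynomial.C.comp (φ.comp ψ) := by
      refine RingHom.ext fun z => ?_
      show Polynomial.map φ (Polynomial.C (ψ z)) = _
      rw [Polynomial.map_C]
      rfl
    rw [h5] at h4
    exact h4.symm
  constructor
  · intro g hgG
    rw [hg, h.eqn g hgG, Polynomial.map_zero]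
  · have h1 := congrArg (Polynomial.map φ) h.bez
    rw [Polynomial.map_sum, Polynomial.map_one] at h1
    rw [← h1]
    refine Finset.sum_congr rfl fun j _ => ?_
    rw [Polynomial.map_mul, hg]
  · obtain ⟨s, t, i, j, hne⟩ := h.non
    refine ⟨φ s, φ t, i, j, ?_⟩
    simp only [Polynomial.eval_map_apply]
    rw [← map_mul, ← map_mul]
    exact fun h => hne (φ.injective h)
  · have h1 := h.out
    unfold InsideL at h1
    push Not at h1
    obtain ⟨t, l, hl⟩ := h1
    intro hin
    have h2 := hin (φ t) l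
    rw [← eval_eval₂, hg, Polynomial.eval_map_apply, eval_eval₂, map_eq_zero] at h2
    exact hl h2

theorem not_alg [Algebra K L] [Algebra.IsAlgebraic K L] (h : LCert G F H (algebraMap K L) P B) :
    ¬ LinesInAlg G F H := by
  intro hc
  let φ : L →ₐ[K] AlgebraicClosure K := IsAlgClosed.lift
  have h1 := h.map (φ : L →+* AlgebraicClosure K)
  have h2 : (φ : L →+* AlgebraicClosure K).comp (algebraMap K L) =
      algebraMap K (AlgebraicClosure K) := φ.comp_algebraMap
  rw [h2] at h1
  exact h1.out (hc _ h1.lineTo h1.non)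

/-- polynomials in one variable -/
theorem one_var {L : Type} [Field L] [NumberField L] (N D : ℕ) (hN : 0 < N) (hD : D ≤ N + 1)
    (c : ℕ → L) (T : ℝ) (hT : 0 ≤ T) (hc : ∀ m, logHeight₁ (c m) ≤ T) :
    ∃ Φ : MvPolynomial (Fin N) L, Φ.totalDegree ≤ N ∧ (∀ m, logHeight₁ (Φ.coeff m) ≤ T) ∧
      ∀ y : L, MvPolynomial.aeval (fun _ : Fin N => y) Φ = ∑ m ∈ Finset.range D, c m * y ^ m := by
  classical
  let i0 : Fin N := ⟨0, hN⟩
  refine ⟨∑ m ∈ Finset.range D, MvPolynomial.monomial (Finsupp.single i0 m) (c m), ?_, ?_, ?_⟩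
  · refine MvPolynomial.totalDegree_finsetSum_le fun m hm => ?_
    refine (MvPolynomial.totalDegree_monomial_le _ _).trans ?_
    rw [Finsupp.sum_single_index rfl]
    have := Finset.mem_range.1 hm
    show m ≤ N
    omega
  · intro q
    rw [MvPolynomial.coeff_sum]
    simp only [MvPolynomial.coeff_monomial]
    by_cases h : ∃ m ∈ Finset.range D, Finsupp.single i0 m = q
    · obtain ⟨m0, hm0, rfl⟩ := h
      rw [Finset.sum_eq_single m0]
      · rw [if_pos rfl]
        exact hc m0
      · intro m _ hne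
        rw [if_neg]
        intro h
        exact hne (Finsupp.single_injective i0 h)
      · intro h
        exact absurd hm0 h
    · push Not at h
      rw [Finset.sum_eq_zero fun m hm => if_neg (h m hm), logHeight₁_zero]
      exact hT
  · intro y
    rw [map_sum]
    refine Finset.sum_congr rfl fun m _ => ?_
    have h1 := Finsupp.prod_single_index (a := i0) (b := m)
      (h := fun (_ : Fin N) (k : ℕ) => y ^ k) (pow_zero y)
    rw [MvPolynomial.aeval_monomial, h1]
    rfl

theorem pts {L : Type} [Field L] [NumberField L] [Algebra K L] {P : Fin (n + 1) → Polynomial L}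
    {B : Fin w → Polynomial L} (h : LCert G F H (algebraMap K L) P B) {A : Set ℕ}
    (hA : A.Infinite) : ¬ FinAll A G F H := by
  classical
  intro hfin
  -- the points
  let x : ℕ → Fin (n + 1) → L := fun a i => (P i).eval (a : L)
  have hyinj : Function.Injective fun a : ℕ => (a : L) := Nat.cast_injective
  obtain ⟨t1, l1, hl1⟩ : ∃ t : L, ∃ l,
      (H l).eval₂ (algebraMap K L) (fun i => (P i).eval t) ≠ 0 := by
    have h3 := h.out
    unfold InsideL at h3
    push Not at h3
    exact h3
  let q : Polynomial L := (H l1).eval₂ (Polynomial.C.comp (algebraMap K L)) P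
  have hq0 : q ≠ 0 := by
    intro h0
    apply hl1
    rw [← eval_eval₂]
    show q.eval t1 = 0
    rw [h0, Polynomial.eval_zero]
  obtain ⟨s1, t2, i0, j0, hne⟩ := h.non
  have hPi : ∃ i, P i ≠ 0 := by
    by_contra hno
    push Not at hno
    apply hne
    rw [hno i0, hno j0]
  obtain ⟨i1, hi1⟩ := hPi
  set A1 : Set ℕ := {a ∈ A | q.eval (a : L) ≠ 0 ∧ (P i1).eval (a : L) ≠ 0} with hA1
  have hgood : A1.Infinite := by
    have h3 : {a : ℕ | (q * P i1).eval (a : L) = 0}.Finite := by
      have h4 : ((q * P i1).roots.toFinset : Set L).Finite := Finset.finite_toSet _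
      refine (h4.preimage hyinj.injOn).subset fun m hm => ?_
      show (m : L) ∈ ((q * P i1).roots.toFinset : Set L)
      rw [Finset.mem_coe, Multiset.mem_toFinset, Polynomial.mem_roots (mul_ne_zero hq0 hi1)]
      exact hm
    have h5 : A1 = A \ {a : ℕ | (q * P i1).eval (a : L) = 0} := by
      ext m
      simp only [hA1, Set.mem_sdiff, Set.mem_ofPred_eq, Polynomial.eval_mul, mul_eq_zero, not_or]
    rw [h5]
    exact hA.sdiff h3
  have hx0 : ∀ m ∈ A1, x m ≠ 0 := fun m hm h0 => hm.2.2 (congrFun h0 i1)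
  let N : ℕ := ∑ i, (P i).natDegree + 1
  -- the bound for the heights
  let κ := Σ j : Fin w, Fin ((B j).natDegree + 1)
  let b : κ → L := fun p => (B p.1).coeff p.2
  obtain ⟨T, hT0, hT1, hT2⟩ : ∃ T : ℝ, 0 ≤ T ∧ (∀ i m, logHeight₁ ((P i).coeff m) ≤ T) ∧
      ho (Si L) (c1 b) ≤ T := by
    refine ⟨(∑ i, ∑ m ∈ Finset.range ((P i).natDegree + 1), logHeight₁ ((P i).coeff m)) +
      |ho (Si L) (c1 b)|, ?_, fun i m => ?_, ?_⟩
    · have : 0 ≤ ∑ i, ∑ m ∈ Finset.range ((P i).natDegree + 1), logHeight₁ ((P i).coeff m) :=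
        Finset.sum_nonneg fun i _ => Finset.sum_nonneg fun m _ => zero_le_logHeight₁ _
      positivity
    · have h4 : 0 ≤ |ho (Si L) (c1 b)| := abs_nonneg _
      have h5 : ∑ m ∈ Finset.range ((P i).natDegree + 1), logHeight₁ ((P i).coeff m) ≤
          ∑ i, ∑ m ∈ Finset.range ((P i).natDegree + 1), logHeight₁ ((P i).coeff m) :=
        Finset.single_le_sum
          (f := fun i => ∑ m ∈ Finset.range ((P i).natDegree + 1), logHeight₁ ((P i).coeff m))
          (fun i _ => Finset.sum_nonneg fun m _ => zero_le_logHeight₁ _) (Finset.mem_univ i)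
      have h6 : logHeight₁ ((P i).coeff m) ≤
          ∑ m ∈ Finset.range ((P i).natDegree + 1), logHeight₁ ((P i).coeff m) := by
        by_cases hm : m ∈ Finset.range ((P i).natDegree + 1)
        · exact Finset.single_le_sum (f := fun m => logHeight₁ ((P i).coeff m))
            (fun m _ => zero_le_logHeight₁ _) hm
        · rw [Finset.mem_range, not_lt] at hm
          rw [Polynomial.coeff_eq_zero_of_natDegree_lt (by omega), logHeight₁_zero]
          exact Finset.sum_nonneg fun m _ => zero_le_logHeight₁ _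
      linarith
    · have h4 : 0 ≤ ∑ i, ∑ m ∈ Finset.range ((P i).natDegree + 1), logHeight₁ ((P i).coeff m) :=
        Finset.sum_nonneg fun i _ => Finset.sum_nonneg fun m _ => zero_le_logHeight₁ _
      have := le_abs_self (ho (Si L) (c1 b))
      linarith
  let Q : ℕ → ℙ L (Fin (n + 1) → L) := fun m => if hm : x m ≠ 0 then
    Projectivization.mk L (x m) hm else Projectivization.mk L (fun _ => 1)
      (fun h0 => one_ne_zero (congrFun h0 0))
  have hQ : ∀ m ∈ A1, IsAPoint A G F H L N T (Q m) := by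
    intro m hm
    refine ⟨x m, hx0 m hm, dif_pos (hx0 m hm), ?_, ?_, ?_, ?_, ?_⟩
    · intro g hg
      rw [MvPolynomial.aeval_def]
      exact h.eq_zero hg (m : L)
    · obtain ⟨j, hj⟩ := h.exists_ne (m : L)
      refine ⟨j, ?_⟩
      rw [MvPolynomial.aeval_def]
      exact hj
    · refine ⟨l1, ?_⟩
      rw [MvPolynomial.aeval_def]
      intro h4
      apply hm.2.1
      show ((H l1).eval₂ (Polynomial.C.comp (algebraMap K L)) P).eval (m : L) = 0
      rw [eval_eval₂]
      exact h4
    · have h3 : ∀ i, ∃ Φ : MvPolynomial (Fin N) L, Φ.totalDegree ≤ N ∧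
          (∀ m, logHeight₁ (Φ.coeff m) ≤ T) ∧ ∀ y : L, MvPolynomial.aeval (fun _ : Fin N => y) Φ =
            ∑ m ∈ Finset.range ((P i).natDegree + 1), (P i).coeff m * y ^ m := by
        intro i
        refine one_var N ((P i).natDegree + 1) (Nat.succ_pos _) ?_ (fun m => (P i).coeff m) T hT0
          (hT1 i)
        have h3 : (P i).natDegree ≤ ∑ i, (P i).natDegree :=
          Finset.single_le_sum (f := fun i => (P i).natDegree) (fun _ _ => Nat.zero_le _)
            (Finset.mem_univ i)
        show (P i).natDegree + 1 ≤ (∑ i, (P i).natDegree + 1) + 1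
        omega
      choose Φ hΦ1 hΦ2 hΦ3 using h3
      refine ⟨Φ, fun _ => m, fun _ => hm.1, hΦ1, hΦ2, fun i => ?_⟩
      rw [hΦ3 i]
      exact Polynomial.eval_eq_sum_range _
    · rw [gcd_eq]
      have hone : ho (Si L) (fun _ : Unit => (1 : L)) = 0 := by
        have h4 := prod_formula (Si L) hSi (1 : L) one_ne_zero
        have h5 : ∑ v ∈ Si L, wt v * Real.log (av v (1 : L)) = 0 :=
          Finset.sum_eq_zero fun v _ => by rw [map_one, Real.log_one, mul_zero]
        linarith
      have h3 := h.bezout (m : L)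
      obtain ⟨j1, hj1⟩ := h.exists_ne (m : L)
      have h4 : ho (Si L) (fun _ : Unit => (1 : L)) ≤
          ho (Si L) (fun j => MvPolynomial.aeval (x m) (F j)) + ho (Si L) (c1 b) := by
        refine ho_mul_le _ _ (ne_of_coord (i := ()) one_ne_zero) _ (ne_of_coord (i := j1) (by
          rw [MvPolynomial.aeval_def]
          exact hj1)) _ (ne_of_one _ none rfl) fun v _ => ?_
        rw [nm_unit, ← h3]
        obtain ⟨j, -, hj⟩ := (fv_na v).finset_image_add_of_nonempty (fun j => (B j).eval (m : L) *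
          (F j).eval₂ (algebraMap K L) (fun i => (P i).eval (m : L))) ⟨j1, Finset.mem_univ j1⟩
        refine hj.trans ?_
        rw [map_mul, mul_comm]
        refine mul_le_mul ?_ ?_ ((fv v).nonneg _) (nm_nonneg _ _)
        · have h5 := le_nm (fv v) (fun j => MvPolynomial.aeval (x m) (F j)) j
          rw [MvPolynomial.aeval_def] at h5
          exact h5
        · rw [Polynomial.eval_eq_sum_range]
          obtain ⟨i, hi, hi2⟩ := (fv_na v).finset_image_add_of_nonempty
            (fun i => (B j).coeff i * ((m : L)) ^ i)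
            (Finset.nonempty_range_iff.2 (Nat.succ_ne_zero (B j).natDegree))
          refine hi2.trans ?_
          have h6 : fv v ((m : L)) ≤ 1 := by
            have := fv_int v (m : ℤ)
            rwa [Int.cast_natCast] at this
          rw [map_mul, map_pow]
          refine (mul_le_of_le_one_right ((fv v).nonneg _)
            (pow_le_one₀ ((fv v).nonneg _) h6)).trans ?_
          exact le_nm (fv v) (c1 b) (some ⟨j, ⟨i, Finset.mem_range.1 hi⟩⟩)
      linarith
  -- a point which occurs infinitely often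
  have hfinite := hfin L N T
  obtain ⟨p, -, hp⟩ : ∃ p, p ∈ {p | IsAPoint A G F H L N T p} ∧ {m ∈ A1 | Q m = p}.Infinite := by
    by_contra hno
    push Not at hno
    apply hgood
    have h6 : A1 ⊆ ⋃ p ∈ {p | IsAPoint A G F H L N T p}, {m ∈ A1 | Q m = p} := by
      intro m hm
      simp only [Set.mem_iUnion]
      exact ⟨Q m, hQ m hm, hm, rfl⟩
    exact (hfinite.biUnion fun p hp => hno p hp).subset h6
  obtain ⟨m1, hm1, hQ1⟩ := hp.nonempty
  have hx1 := hx0 m1 hm1
  have hprop : ∀ i j, P i * Polynomial.C (x m1 j) = P j * Polynomial.C (x m1 i) := by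
    intro i j
    by_contra hcon
    have h3 : P i * Polynomial.C (x m1 j) - P j * Polynomial.C (x m1 i) ≠ 0 := sub_ne_zero.2 hcon
    apply hp
    have h4 : ((P i * Polynomial.C (x m1 j) - P j * Polynomial.C (x m1 i)).roots.toFinset :
      Set L).Finite := Finset.finite_toSet _
    refine (h4.preimage hyinj.injOn).subset fun m hm => ?_
    rw [Set.mem_preimage, Finset.mem_coe, Multiset.mem_toFinset, Polynomial.mem_roots h3, Polynomial.IsRoot.def,
      Polynomial.eval_sub, Polynomial.eval_mul, Polynomial.eval_mul, Polynomial.eval_C,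
      Polynomial.eval_C]
    have h5 : Q m = Q m1 := hm.2.trans hQ1.symm
    have h6 : Q m = Projectivization.mk L (x m) (hx0 m hm.1) := dif_pos (hx0 m hm.1)
    have h7 : Q m1 = Projectivization.mk L (x m1) hx1 := dif_pos hx1
    rw [h6, h7, Projectivization.mk_eq_mk_iff'] at h5
    obtain ⟨a, ha⟩ := h5
    have h8 : ∀ i, (P i).eval (m : L) = a * x m1 i := fun i => (congrFun ha i).symm
    rw [h8 i, h8 j]
    ring
  obtain ⟨j1, hj1⟩ := Function.ne_iff.1 hx1
  have hj1' : x m1 j1 ≠ 0 := hj1
  apply hne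
  have h9 : ∀ s i, (P i).eval s * x m1 j1 = (P j1).eval s * x m1 i := by
    intro s i
    have := congrArg (Polynomial.eval s) (hprop i j1)
    rwa [Polynomial.eval_mul, Polynomial.eval_mul, Polynomial.eval_C, Polynomial.eval_C] at this
  have e1 := h9 s1 i0
  have e2 := h9 s1 j0
  have e3 := h9 t2 i0
  have e4 := h9 t2 j0
  apply mul_right_cancel₀ (mul_ne_zero hj1' hj1')
  calc (P i0).eval s1 * (P j0).eval t2 * (x m1 j1 * x m1 j1) =
      ((P i0).eval s1 * x m1 j1) * ((P j0).eval t2 * x m1 j1) := by ring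
    _ = ((P j1).eval s1 * x m1 i0) * ((P j1).eval t2 * x m1 j0) := by rw [e1, e4]
    _ = ((P j1).eval s1 * x m1 j0) * ((P j1).eval t2 * x m1 i0) := by ring
    _ = ((P j0).eval s1 * x m1 j1) * ((P i0).eval t2 * x m1 j1) := by rw [e2, e3]
    _ = _ := by ring

/-- **The equivalence.** -/
theorem tfae [NumberField K] {A : Set ℕ} (hA : Coherent A) (hAi : A.Infinite)
    (G : Set (MvPolynomial (Fin (n + 1)) K))
    (F : Fin w → MvPolynomial (Fin (n + 1)) K) (H : Fin r → MvPolynomial (Fin (n + 1)) K)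
    (hG : ∀ g ∈ G, ∃ d, g.IsHomogeneous d) (hF : ∀ j, ∃ d, 0 < d ∧ (F j).IsHomogeneous d)
    (hH : ∀ l, ∃ d, (H l).IsHomogeneous d) :
    List.TFAE [LinesIn G F H, LinesInAlg G F H, HBound A G F H, FinAll A G F H] := by
  have hspec : ∀ (Q : Prop), (∀ (L : Type) [Field L] [NumberField L] [Algebra K L]
      (P : Fin (n + 1) → Polynomial L) (B : Fin w → Polynomial L),
      LCert G F H (algebraMap K L) P B → ¬ Q) → Q → LinesIn G F H := by
    intro Q hQ hq Ω _ _ ψ P h1 h2
    by_contra h3
    obtain ⟨L, _, _, _, P', B, hcert⟩ := specialise G F H ψ P h1 h2 h3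
    exact hQ L P' B hcert hq
  tfae_have 1 → 3 := hbound G F H hA hG hF hH
  tfae_have 3 → 4 := fin_of_hbound G F H
  tfae_have 4 → 1 := hspec _ fun L _ _ _ P B hcert => pts hcert hAi
  tfae_have 1 → 2 := fun h => h (AlgebraicClosure K) (algebraMap K (AlgebraicClosure K))
  tfae_have 2 → 1 := hspec _ fun L _ _ _ P B hcert => by
    have : Algebra.IsAlgebraic K L := Algebra.IsAlgebraic.tower_top (K := ℚ) K
    exact not_alg hcert
  tfae_finish

end cert

end Pool.Agent.D0H97.FT
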