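import Pool.Agent.K1H83.VN.Val
import Pool.Agent.D0H97.FT.Coh

/-!
Near integers: germs whose denominators are small.
-/

set_option autoImplicit false
set_option linter.unusedSectionVars false

namespace Pool.Agent.D0H97.FT

open NumberField IsDedekindDomain Height Filter Topology
open Pool.Agent.W180.OP (Pl av wt fv fv_support_finite wt_nonneg)
open Pool.Agent.K1H83.VN

/-- the infinite places -/
noncomputable def Si (k : Type) [Field k] [NumberField k] : Finset (Pl k) :=
  Finset.univ.map ⟨Sum.inl, Sum.inl_injective⟩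

section base

variable {k : Type} [Field k] [NumberField k]

theorem hSi (w : InfinitePlace k) : (Sum.inl w : Pl k) ∈ Si k :=
  Finset.mem_map_of_mem _ (Finset.mem_univ w)

theorem inr_Si (v : HeightOneSpectrum (𝓞 k)) : (Sum.inr v : Pl k) ∉ Si k := by
  intro h
  obtain ⟨w, -, hw⟩ := Finset.mem_map.1 h
  exact Sum.inl_ne_inr hw

theorem mem_Si {v : Pl k} (h : v ∈ Si k) : ∃ w : InfinitePlace k, v = Sum.inl w := by
  obtain ⟨w, -, hw⟩ := Finset.mem_map.1 h
  exact ⟨w, hw.symm⟩

theorem v10 (x : k) : (![x, 1] : Fin 2 → k) ≠ 0 := ne_of_one _ 1 rfl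

/-- the size of the denominator -/
noncomputable def dn (x : k) : ℝ := ho (Si k) ![x, 1]

theorem nm_pair (f : AbsoluteValue k ℝ) (x : k) : nm f ![x, 1] = max (f x) 1 := by
  apply le_antisymm
  · refine nm_le _ (le_trans zero_le_one (le_max_right _ _)) fun i => ?_
    fin_cases i
    · exact le_max_left _ _
    · show f 1 ≤ _
      rw [map_one]
      exact le_max_right _ _
  · refine max_le (le_nm f ![x, 1] 0) ?_
    have := le_nm f ![x, 1] 1
    rwa [show (![x, 1] : Fin 2 → k) 1 = 1 from rfl, map_one] at this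

theorem dn_nonneg (x : k) : 0 ≤ dn x := by
  refine ho_nonneg _ _ fun v _ => ?_
  rw [nm_pair]
  exact le_max_right _ _

theorem dn_le_height (x : k) : dn x ≤ logHeight₁ x := by
  rw [logHeight₁_eq_logHeight]
  exact ho_le_height (Si k) hSi ![x, 1] 1 rfl

theorem dn_mul (x y : k) : dn (x * y) ≤ dn x + dn y := by
  refine ho_mul_le _ _ (v10 _) _ (v10 _) _ (v10 _) fun v _ => ?_
  rw [nm_pair, nm_pair, nm_pair, map_mul]
  have h1 : 0 ≤ fv v x := (fv v).nonneg _
  have h2 : 0 ≤ fv v y := (fv v).nonneg _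
  refine max_le ?_ ?_
  · exact mul_le_mul (le_max_left _ _) (le_max_left _ _) h2 (le_trans zero_le_one (le_max_right _ _))
  · exact one_le_mul_of_one_le_of_one_le (le_max_right _ _) (le_max_right _ _)

theorem dn_add (x y : k) : dn (x + y) ≤ dn x + dn y := by
  refine ho_mul_le _ _ (v10 _) _ (v10 _) _ (v10 _) fun v _ => ?_
  rw [nm_pair, nm_pair, nm_pair]
  have h1 : (1 : ℝ) ≤ max (fv v x) 1 := le_max_right _ _
  have h2 : (1 : ℝ) ≤ max (fv v y) 1 := le_max_right _ _
  have h3 : fv v (x + y) ≤ max (fv v x) (fv v y) := fv_na v x y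
  refine max_le (h3.trans (max_le ?_ ?_)) ?_
  · exact (le_max_left _ _).trans (le_mul_of_one_le_right (by linarith) h2)
  · exact (le_max_left _ _).trans (le_mul_of_one_le_left (by linarith) h1)
  · exact one_le_mul_of_one_le_of_one_le h1 h2

theorem dn_neg (x : k) : dn (-x) = dn x := by
  unfold dn ho
  congr 1
  funext v
  unfold lo
  rw [nm_pair, nm_pair, (fv v).map_neg]

/-- the vector `(1, y)` -/
theorem ho_c1_le {ι : Type} [Fintype ι] (y : ι → k) : ho (Si k) (c1 y) ≤ ∑ i, dn (y i) := by
  classical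
  have h : ∀ A : Finset ι, ho (Si k) (c1 fun i => if i ∈ A then y i else 0) ≤ ∑ i ∈ A, dn (y i) := by
    intro A
    induction A using Finset.induction_on with
    | empty =>
      simp only [Finset.notMem_empty, if_false, Finset.sum_empty]
      refine ho_nonpos _ _ (ne_of_one _ none rfl) fun v _ => ?_
      refine nm_le _ zero_le_one fun o => ?_
      rcases o with _ | i
      · show fv v 1 ≤ 1
        rw [map_one]
      · show fv v 0 ≤ 1
        rw [map_zero]
        exact zero_le_one
    | insert a A ha ih =>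
      rw [Finset.sum_insert ha, add_comm]
      refine le_trans ?_ (add_le_add_left ih _)
      refine ho_mul_le _ _ (ne_of_one _ none rfl) _ (ne_of_one _ none rfl) _ (v10 _) fun v _ => ?_
      have h1 : (1 : ℝ) ≤ nm (fv v) (c1 fun i => if i ∈ A then y i else 0) :=
        one_le_nm _ _ none rfl
      have h2 : (1 : ℝ) ≤ nm (fv v) ![y a, 1] := one_le_nm _ _ 1 rfl
      refine nm_le _ (by positivity) fun o => ?_
      rcases o with _ | i
      · show fv v 1 ≤ _
        rw [map_one]
        exact one_le_mul_of_one_le_of_one_le h1 h2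
      · show fv v (if i ∈ insert a A then y i else 0) ≤ _
        by_cases hia : i = a
        · subst hia
          rw [if_pos (Finset.mem_insert_self _ _)]
          exact (le_nm (fv v) ![y i, 1] 0).trans (le_mul_of_one_le_left (by linarith) h1)
        · have h3 : (if i ∈ insert a A then y i else 0) = if i ∈ A then y i else 0 := by
            simp only [Finset.mem_insert, hia, false_or]
          rw [h3]
          exact (le_nm (fv v) (c1 fun i => if i ∈ A then y i else 0) (some i)).trans
            (le_mul_of_one_le_right (by linarith) h2)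
  have h1 := h Finset.univ
  simpa using h1

/-- the degree -/
noncomputable def dg (k : Type) [Field k] [NumberField k] : ℝ := ∑ v ∈ Si k, wt v

theorem one_le_dg : 1 ≤ dg k := by
  obtain ⟨w⟩ : Nonempty (InfinitePlace k) := inferInstance
  exact (one_le_wt (Sum.inl w)).trans
    (Finset.single_le_sum (f := fun v => wt v) (fun v _ => wt_nonneg v) (hSi w))

theorem inf_nat (w : InfinitePlace k) (n : ℕ) : av (Sum.inl w : Pl k) (n : k) = n := by
  show w (n : k) = n
  rw [← InfinitePlace.norm_embedding_eq, map_natCast, Complex.norm_natCast]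

theorem ho_nat (n : ℕ) (hn : n ≠ 0) :
    ho (Si k) (fun _ : Unit => ((n : k))⁻¹) = dg k * Real.log n := by
  have hn' : (n : k) ≠ 0 := Nat.cast_ne_zero.2 hn
  have h1 := prod_formula (Si k) hSi (n : k) hn'
  rw [ho_unit_inv (Si k) hSi _ hn', ← h1]
  unfold dg
  rw [Finset.sum_mul]
  refine Finset.sum_congr rfl fun v hv => ?_
  obtain ⟨w, rfl⟩ := mem_Si hv
  rw [inf_nat]

theorem fv_int (v : HeightOneSpectrum (𝓞 k)) (z : ℤ) : fv v (z : k) ≤ 1 :=
  IsNonarchimedean.apply_intCast_le_one (fv_na v)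

/-- denominators of rational numbers -/
theorem dn_rat (q : ℚ) : dn (algebraMap ℚ k q) ≤ dg k * Real.log q.den := by
  rw [← ho_nat q.den q.den_nz]
  have hd : (q.den : k) ≠ 0 := Nat.cast_ne_zero.2 q.den_nz
  refine ho_le _ _ (v10 _) _ (ne_of_coord (i := ()) (inv_ne_zero hd)) fun v _ => ?_
  rw [nm_pair, nm_unit, map_inv₀]
  have h1 : fv v (q.den : k) ≤ 1 := by
    have := fv_int v (q.den : ℤ)
    rwa [Int.cast_natCast] at this
  have h2 : 0 < fv v (q.den : k) := (fv v).pos hd
  have h3 : algebraMap ℚ k q = (q.num : k) / (q.den : k) := by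
    conv_lhs => rw [← Rat.num_div_den q]
    rw [map_div₀, map_intCast, map_natCast]
  refine max_le ?_ ((one_le_inv₀ h2).2 h1)
  rw [h3, map_div₀, div_eq_mul_inv]
  exact mul_le_of_le_one_left (inv_nonneg.2 h2.le) (fv_int v q.num)

end base

section germ

variable {k : Type} [Field k] [NumberField k] {σ : Sc}

/-- the near integers -/
noncomputable def NI (k : Type) [Field k] [NumberField k] (σ : Sc) : Subring (G k σ) where
  carrier := {x | Sm σ fun t => dn (rep x t)}
  mul_mem' := by
    intro x y hx hy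
    refine (Sm.add hx hy).mono ?_
    filter_upwards [rep_mul x y] with t ht
    rw [ht]
    exact dn_mul _ _
  one_mem' := by
    refine (Sm.const 0).mono ?_
    filter_upwards [rep_one (k := k) (σ := σ)] with t ht
    rw [ht]
    exact (dn_le_height 1).trans (le_of_eq logHeight₁_one)
  add_mem' := by
    intro x y hx hy
    refine (Sm.add hx hy).mono ?_
    filter_upwards [rep_add x y] with t ht
    rw [ht]
    exact dn_add _ _
  zero_mem' := by
    refine (Sm.const 0).mono ?_
    filter_upwards [rep_zero (k := k) (σ := σ)] with t ht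
    rw [ht]
    exact (dn_le_height 0).trans (le_of_eq logHeight₁_zero)
  neg_mem' := by
    intro x hx
    refine Sm.mono hx ?_
    filter_upwards [rep_neg x] with t ht
    rw [ht, dn_neg]

theorem mem_NI (x : G k σ) : x ∈ NI k σ ↔ Sm σ fun t => dn (rep x t) := Iff.rfl

theorem gm_mem_NI (f : ℕ → k) (h : Sm σ fun t => dn (f t)) : gm σ f ∈ NI k σ := by
  rw [mem_NI]
  refine h.mono ?_
  filter_upwards [rep_gm f] with t ht
  rw [ht]

theorem FF_NI {x : G k σ} (hx : x ∈ FF k σ) : x ∈ NI k σ := by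
  rw [mem_NI]
  rw [mem_FF] at hx
  exact hx.mono (Eventually.of_forall fun t => dn_le_height _)

/-- near integers with small absolute values are small -/
theorem FF_of_NI {x : G k σ} (hx : x ∈ NI k σ)
    (h : ∀ w : InfinitePlace k, (OO σ (av (Sum.inl w : Pl k))).valuation x ≤ 1) : x ∈ FF k σ := by
  rw [mem_FF]
  rw [mem_NI] at hx
  have h1 : Sm σ fun t => ∑ v ∈ Si k, wt v * Real.log (nm (av v) ![rep x t, 1]) := by
    refine Sm.sum _ fun v hv => ?_
    obtain ⟨w, rfl⟩ := mem_Si hv
    refine Sm.smul ?_ (wt_nonneg _)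
    intro ε hε
    have h2 : x ∈ OO σ (av (Sum.inl w : Pl k)) := ((OO σ _).valuation_le_one_iff x).1 (h w)
    rw [mem_OO] at h2
    filter_upwards [h2 ε hε, L_pos (σ := σ)] with t h3 h4
    rw [nm_pair]
    have h5 : max (av (Sum.inl w : Pl k) (rep x t)) 1 ≤ Real.exp (ε * σ.L t) :=
      max_le h3 (Real.one_le_exp (by positivity))
    rw [Real.log_le_iff_le_exp (lt_of_lt_of_le one_pos (le_max_right _ _))]
    exact h5
  refine (h1.add hx).mono (Eventually.of_forall fun t => ?_)
  rw [logHeight₁_eq_logHeight, logHeight_split (Si k) hSi _ (v10 _)]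
  rfl

/-- **Common divisors.** -/
theorem gcd_contra {w' : ℕ} (y R : Fin w' → G k σ) (q : G k σ) (hq : q ≠ 0)
    (hR : ∀ j, R j ∈ NI k σ) (hy : ∀ j, y j = q * R j) (hy0 : ∃ j, y j ≠ 0) (c0 : ℝ) (hc0 : 0 < c0)
    (hbig : ∀ w : InfinitePlace k, ∀ᶠ t in (σ.𝒰 : Filter ℕ), c0 * σ.L t ≤ lv (Sum.inl w) q t)
    (hsm : Sm σ fun t => -ho (Si k) fun j => rep (y j) t) : False := by
  obtain ⟨j0, hj0⟩ := hy0
  have h1 : Sm σ fun t => ∑ j, dn (rep (R j) t) := Sm.sum _ fun j _ => hR j
  have h2 : ∀ᶠ t in (σ.𝒰 : Filter ℕ), ∀ j, rep (y j) t = rep q t * rep (R j) t := by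
    rw [Filter.eventually_all]
    intro j
    rw [hy j]
    exact rep_mul _ _
  have h3 : ∀ᶠ t in (σ.𝒰 : Filter ℕ), ∀ w : InfinitePlace k, c0 * σ.L t ≤ lv (Sum.inl w) q t := by
    rw [Filter.eventually_all]
    exact hbig
  obtain ⟨t, e1, e2, e3, e4, e5, e6, e7⟩ := ((h1 (c0 / 4) (by positivity)).and (h2.and (h3.and
    ((rep_ne q hq).and ((rep_ne _ hj0).and ((hsm (c0 / 4) (by positivity)).and
      (L_pos (σ := σ)))))))).exists
  have h4 : ho (Si k) (fun j => rep (y j) t) ≤ ho (Si k) (fun _ : Unit => rep q t) +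
      ho (Si k) (c1 fun j => rep (R j) t) := by
    refine ho_mul_le _ _ (ne_of_coord (i := j0) e5) _ (ne_of_coord (i := ()) e4) _
      (ne_of_one _ none rfl) fun v _ => ?_
    refine nm_le _ (mul_nonneg (nm_nonneg _ _) (nm_nonneg _ _)) fun j => ?_
    rw [e2 j, map_mul, nm_unit]
    exact mul_le_mul_of_nonneg_left (le_nm (fv v) (c1 fun j => rep (R j) t) (some j))
      ((fv v).nonneg _)
  have h5 := ho_c1_le fun j => rep (R j) t
  have h6 := prod_formula (Si k) hSi _ e4
  have h7 : dg k * (c0 * σ.L t) ≤ ∑ v ∈ Si k, wt v * Real.log (av v (rep q t)) := by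
    unfold dg
    rw [Finset.sum_mul]
    refine Finset.sum_le_sum fun v hv => ?_
    obtain ⟨w, rfl⟩ := mem_Si hv
    exact mul_le_mul_of_nonneg_left (e3 w) (wt_nonneg _)
  have h8 : c0 * σ.L t ≤ dg k * (c0 * σ.L t) :=
    le_mul_of_one_le_left (by positivity) one_le_dg
  have h9 : 0 < c0 * σ.L t := by positivity
  linarith

end germ

end Pool.Agent.D0H97.FT
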