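import Pool.Agent.D0H85.SP.Spec
import Pool.Agent.D0H97.FT.Dom

/-!
The main step: from points with coordinates in the ring of a coherent set to lines.
-/

set_option autoImplicit false
set_option linter.unusedSectionVars false

namespace Pool.Agent.D0H97.FT

open NumberField IsDedekindDomain Height Filter Topology
open Pool.Agent.W180.OP (Pl av wt fv fv_support_finite wt_nonneg)
open Pool.Agent.K1H83.VN
open Pool.Agent.D0H85.SP (pw pw_add pw_neg pw_zero evg evg_C evg_monomial evg_eq Th Th_C Th_X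
  Th_monomial wgt exists_factor eval₂_smul eval_gm poly_zero eval_eval₂)

/-- There is a nonconstant map from the affine line to the quasi-projective variety with the
equations `G`, outside the common zeros of the `F j`, whose image is not in the common zeros of the
`H l`. -/
def HasLine {k : Type} [Field k] {n w r : ℕ} (GG : Set (MvPolynomial (Fin (n + 1)) k))
    (F : Fin w → MvPolynomial (Fin (n + 1)) k) (H : Fin r → MvPolynomial (Fin (n + 1)) k) : Prop :=
  ∃ (L : Type) (_ : Field L) (_ : IsAlgClosed L) (ψ : k →+* L) (P : Fin (n + 1) → Polynomial L),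
    (∀ t : L, (∀ g ∈ GG, g.eval₂ ψ (fun i => (P i).eval t) = 0) ∧
      ∃ j, (F j).eval₂ ψ (fun i => (P i).eval t) ≠ 0) ∧
    (∃ s t : L, ∃ i j, (P i).eval s * (P j).eval t ≠ (P j).eval s * (P i).eval t) ∧
    ∃ t : L, ∃ l, (H l).eval₂ ψ (fun i => (P i).eval t) ≠ 0

variable {k : Type} [Field k] [NumberField k] {σ : Sc} {s : ℕ}

theorem zero_form {K L : Type} [Field K] [Field L] {ι : Type} (f : K →+* L) (g : MvPolynomial ι K)
    (d : ℕ) (hd : 0 < d) (hg : g.IsHomogeneous d) (x : ι → L) (hx : ∀ i, x i = 0) :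
    g.eval₂ f x = 0 := by
  have h1 := eval₂_smul f g d hg 0 x
  rw [zero_pow hd.ne', zero_mul] at h1
  rw [← h1]
  congr 1
  funext i
  rw [hx i, zero_mul]

section core

variable {e : Fin s → G k σ} {β : Fin s → ℝ} {n w : ℕ}

/-- the constant monomial -/
noncomputable def cM (s M : ℕ) : Fin s →₀ ℕ := Finsupp.equivFunOnFinite.symm fun _ => M

theorem cM_apply (M : ℕ) (i : Fin s) : cM s M i = M := rfl

theorem pw_nsmul (he : ∀ i, e i ≠ 0) (a : Fin s → ℤ) (d : ℕ) :
    pw e (fun i => (d : ℤ) * a i) = pw e a ^ d := by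
  rw [← zpow_natCast, ← Pool.Agent.D0H85.SP.pw_zsmul e he]
  rfl

/-- the value of a form at a vector of germs whose valuation is at most one -/
theorem form_le_one (w0 : InfinitePlace k) (g : MvPolynomial (Fin (n + 1)) k)
    (z : Fin (n + 1) → G k σ) (hz : ∀ i, vw σ w0 (z i) ≤ 1) :
    vw σ w0 (g.eval₂ (algebraMap k (G k σ)) z) ≤ 1 := by
  rw [MvPolynomial.eval₂_eq]
  refine Valuation.map_sum_le _ fun m _ => ?_
  rw [map_mul, map_prod]
  refine mul_le_one' (val_FF_le _ (alg_mem _)) ?_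
  refine Finset.prod_le_one' fun i _ => ?_
  rw [map_pow]
  exact pow_le_one' (hz i) _

/-- a common factor which is not a monomial is impossible -/
theorem factor_contra (h : Bet e β) (x : Fin (n + 1) → ℕ → k)
    (φ : Fin (n + 1) → MvPolynomial (Fin s) (FF k σ)) (Xm : Fin (n + 1) → G k σ) (M : ℕ)
    (F : Fin w → MvPolynomial (Fin (n + 1)) k) (dF : Fin w → ℕ)
    (f : Fin w → MvPolynomial (Fin s) (FF k σ))
    (hf : ∀ j, evg e (f j) = pw e (fun _ => (M : ℤ)) ^ dF j *
      gm σ (fun t => (F j).eval (fun i => x i t)))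
    (hfm : ∀ j, evg (fun i => (e i)⁻¹) (f j) * pw e (fun _ => (M : ℤ)) ^ dF j =
      (F j).eval₂ (algebraMap k (G k σ)) Xm)
    (hXm : ∀ w0 : InfinitePlace k, ∀ i, vw σ w0 (Xm i) ≤ 1)
    (hFx : ∀ t, ∃ j, (F j).eval (fun i => x i t) ≠ 0)
    (hFs : Sm σ fun t => -ho (Si k) fun j => (F j).eval (fun i => x i t))
    (r : MvPolynomial (Fin s) (FF k σ)) (hr : ∀ j, r ∣ f j)
    (hrm : ∀ m c, r ≠ MvPolynomial.monomial m c) : False := by
  classical
  obtain ⟨w0⟩ : Nonempty (InfinitePlace k) := inferInstance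
  have hr0 : r ≠ 0 := by
    rintro rfl
    exact hrm 0 0 (by rw [map_zero])
  choose y hy using hr
  obtain ⟨μ, hμ, hμv, hμmin⟩ := h.dom_inv w0 r hr0
  set E0 : G k σ := pw e (fun _ => (M : ℤ)) with hE0
  have hE00 : E0 ≠ 0 := h.pw_ne _
  have hpμ : pw e (zz μ) ≠ 0 := h.pw_ne _
  let q : G k σ := evg e r * pw e (-zz μ)
  let R : Fin w → G k σ := fun j => evg e (y j) * pw e (-fun i => ((dF j : ℤ) * (M : ℤ)) - zz μ i)
  have hsplit : ∀ j, pw e (-fun i => ((dF j : ℤ) * (M : ℤ)) - zz μ i) =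
      (E0 ^ dF j)⁻¹ * pw e (zz μ) := by
    intro j
    have h1 : (-fun i => ((dF j : ℤ) * (M : ℤ)) - zz μ i : Fin s → ℤ) =
        -(fun _ => (dF j : ℤ) * (M : ℤ)) + zz μ := by
      funext i
      simp only [Pi.neg_apply, Pi.add_apply]
      ring
    rw [h1, pw_add e h.ne, pw_neg e h.ne, pw_nsmul h.ne (fun _ => (M : ℤ)) (dF j)]
  refine gcd_contra' (fun j => gm σ (fun t => (F j).eval (fun i => x i t))) R q ?_ ?_ ?_ ?_ ?_
  · -- the cofactors are near integers
    intro j
    refine h.near_value w0 (y j) _ ?_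
    have h1 : (fun i => ((dF j : ℤ) * (M : ℤ)) - zz μ i : Fin s → ℤ) =
        (fun _ => (dF j : ℤ) * (M : ℤ)) + -zz μ := by
      funext i
      simp only [Pi.neg_apply, Pi.add_apply]
      ring
    rw [h1, pw_add e h.ne, pw_nsmul h.ne (fun _ => (M : ℤ)) (dF j), ← hE0]
    have h2 : vw σ w0 (evg (fun i => (e i)⁻¹) (y j) * (E0 ^ dF j * pw e (-zz μ))) =
        vw σ w0 ((F j).eval₂ (algebraMap k (G k σ)) Xm) := by
      rw [← hfm j, hy j, map_mul (evg _)]
      simp only [map_mul]
      rw [hμv]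
      ac_rfl
    rw [h2]
    exact form_le_one w0 (F j) Xm (hXm w0)
  · intro j
    show gm σ (fun t => (F j).eval (fun i => x i t)) = (evg e r * pw e (-zz μ)) *
      (evg e (y j) * pw e (-fun i => ((dF j : ℤ) * (M : ℤ)) - zz μ i))
    rw [hsplit j, pw_neg e h.ne]
    have h1 := hf j
    rw [hy j, map_mul] at h1
    have h3 : (evg e r * (pw e (zz μ))⁻¹) * (evg e (y j) * ((E0 ^ dF j)⁻¹ * pw e (zz μ))) =
        (evg e r * evg e (y j)) * (E0 ^ dF j)⁻¹ := by
      field_simp
    rw [h3, h1]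
    field_simp
  · choose jt hjt using hFx
    obtain ⟨j1, -, hj1⟩ := const_of_finite (σ := σ) jt Set.univ Set.finite_univ
      (Eventually.of_forall fun _ => Set.mem_univ _)
    refine ⟨j1, ?_⟩
    rw [gm_ne]
    filter_upwards [hj1] with t ht
    rw [← ht]
    exact hjt t
  · -- the divisor is large
    intro w1
    obtain ⟨m1, -, hm1, hmax⟩ := h.dom_e w1 r hr0
    obtain ⟨m, hm, hne⟩ : ∃ m ∈ r.support, m ≠ μ := by
      by_contra hno
      push Not at hno
      apply hrm μ (r.coeff μ)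
      refine MvPolynomial.ext _ _ fun m' => ?_
      rw [MvPolynomial.coeff_monomial]
      split_ifs with h1
      · rw [h1]
      · by_contra h2
        exact h1 (hno m' (MvPolynomial.mem_support_iff.2 h2)).symm
    have h1 : vw σ w0 (pw e (-zz m + zz μ)) ≤ 1 := by
      rw [pw_add e h.ne, map_mul]
      have h2 := hμmin m hm
      have h3 : vw σ w0 (pw e (-zz μ)) * vw σ w0 (pw e (zz μ)) = 1 := by
        rw [← map_mul, ← pw_add e h.ne, neg_add_cancel, pw_zero e h.ne, map_one]
      exact (mul_le_mul_left h2 _).trans h3.le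
    have h2 := (h.le_one_iff w0 _).1 h1
    have h3 : ∑ i, ((-zz m + zz μ) i : ℝ) * β i ≠ 0 := by
      intro h4
      have h5 := h.inj _ h4
      apply hne
      apply zz_inj
      have h6 := neg_add_eq_zero.1 h5
      exact h6
    have h4 : 0 < ∑ i, ((zz m + -zz μ) i : ℝ) * β i := by
      have h5 : (zz m + -zz μ) = -(-zz m + zz μ) := by rw [neg_add, neg_neg]
      rw [h5, sum_neg]
      have := lt_of_le_of_ne h2 h3
      linarith
    have h5 := h.lt w1 _ h4
    show 1 < vw σ w1 (evg e r * pw e (-zz μ))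
    rw [map_mul, hm1]
    refine lt_of_lt_of_le h5 ?_
    rw [pw_add e h.ne, map_mul]
    exact mul_le_mul_left (hmax m hm) _
  · refine hFs.mono ?_
    have h1 : ∀ᶠ t in (σ.𝒰 : Filter ℕ), ∀ j, rep (gm σ (fun t => (F j).eval (fun i => x i t))) t =
        (F j).eval (fun i => x i t) := by
      rw [Filter.eventually_all]
      exact fun j => rep_gm _
    filter_upwards [h1] with t ht
    have h2 : (fun j => rep (gm σ (fun t => (F j).eval (fun i => x i t))) t) =
        fun j => (F j).eval (fun i => x i t) := funext ht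
    rw [h2]

/-- the forms do not all vanish at the limit point -/
theorem zero_contra (h : Bet e β) (x : Fin (n + 1) → ℕ → k) (Xm : Fin (n + 1) → G k σ) (M : ℕ)
    (F : Fin w → MvPolynomial (Fin (n + 1)) k) (dF : Fin w → ℕ)
    (f : Fin w → MvPolynomial (Fin s) (FF k σ))
    (hf : ∀ j, evg e (f j) = pw e (fun _ => (M : ℤ)) ^ dF j *
      gm σ (fun t => (F j).eval (fun i => x i t)))
    (hfm : ∀ j, evg (fun i => (e i)⁻¹) (f j) * pw e (fun _ => (M : ℤ)) ^ dF j =
      (F j).eval₂ (algebraMap k (G k σ)) Xm)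
    (hFx : ∀ t, ∃ j, (F j).eval (fun i => x i t) ≠ 0)
    (hFs : Sm σ fun t => -ho (Si k) fun j => (F j).eval (fun i => x i t))
    (w0 : InfinitePlace k)
    (hlt : ∀ j, vw σ w0 ((F j).eval₂ (algebraMap k (G k σ)) Xm) < 1) : False := by
  classical
  set E0 : G k σ := pw e (fun _ => (M : ℤ)) with hE0
  have hE00 : E0 ≠ 0 := h.pw_ne _
  choose jt hjt using hFx
  obtain ⟨j1, -, hj1⟩ := const_of_finite (σ := σ) jt Set.univ Set.finite_univ
    (Eventually.of_forall fun _ => Set.mem_univ _)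
  have hgm1 : gm σ (fun t => (F j1).eval (fun i => x i t)) ≠ 0 := by
    rw [gm_ne]
    filter_upwards [hj1] with t ht
    rw [← ht]
    exact hjt t
  have hf1 : f j1 ≠ 0 := by
    intro h0
    have h1 := hf j1
    rw [h0, map_zero] at h1
    exact mul_ne_zero (pow_ne_zero _ hE00) hgm1 h1.symm
  have : Nonempty (Fin w) := ⟨j1⟩
  obtain ⟨j0, hj0⟩ := Finite.exists_max fun j =>
    vw σ w0 ((F j).eval₂ (algebraMap k (G k σ)) Xm)
  -- the values at `e⁻¹` are not zero
  have hne : ∀ j, f j ≠ 0 → ∃ m0 ∈ (f j).support,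
      vw σ w0 ((F j).eval₂ (algebraMap k (G k σ)) Xm) =
        vw σ w0 (pw e ((fun _ => (dF j : ℤ) * (M : ℤ)) + -zz m0)) := by
    intro j hj
    obtain ⟨m0, hm0, hv, -⟩ := h.dom_inv w0 (f j) hj
    refine ⟨m0, hm0, ?_⟩
    rw [← hfm j, map_mul, hv, pw_add e h.ne, map_mul, pw_nsmul h.ne (fun _ => (M : ℤ)) (dF j),
      mul_comm]
  have hf0 : f j0 ≠ 0 := by
    intro h0
    have h1 : (F j0).eval₂ (algebraMap k (G k σ)) Xm = 0 := by
      rw [← hfm j0, h0, map_zero, zero_mul]
    have h2 := hj0 j1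
    simp only [h1, map_zero] at h2
    obtain ⟨m1, -, hm1⟩ := hne j1 hf1
    rw [hm1] at h2
    exact (Valuation.ne_zero_iff _).2 (h.pw_ne _) (le_antisymm h2 zero_le)
  obtain ⟨m0, -, hm0⟩ := hne j0 hf0
  obtain ⟨a0, ha0⟩ : ∃ a0 : Fin s → ℤ, (fun _ => (dF j0 : ℤ) * (M : ℤ)) + -zz m0 = a0 := ⟨_, rfl⟩
  rw [ha0] at hm0
  have h1 : ∑ i, (a0 i : ℝ) * β i < 0 := by
    have h2 := hlt j0
    rw [hm0] at h2
    have h3 := (h.le_one_iff w0 a0).1 h2.le
    refine lt_of_le_of_ne h3 fun h4 => ?_
    rw [h.inj a0 h4, pw_zero e h.ne, map_one] at h2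
    exact lt_irrefl _ h2
  refine gcd_contra' (fun j => gm σ (fun t => (F j).eval (fun i => x i t)))
    (fun j => evg e (f j) * pw e (-((fun _ => (dF j : ℤ) * (M : ℤ)) + -a0))) (pw e (-a0))
    ?_ ?_ ⟨j1, hgm1⟩ ?_ ?_
  · intro j
    refine h.near_value w0 (f j) _ ?_
    rw [pw_add e h.ne, pw_nsmul h.ne (fun _ => (M : ℤ)) (dF j), ← hE0, ← mul_assoc, hfm j, map_mul]
    have h3 : vw σ w0 (pw e a0) * vw σ w0 (pw e (-a0)) = 1 := by
      rw [← map_mul, ← pw_add e h.ne, add_neg_cancel, pw_zero e h.ne, map_one]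
    have h4 : vw σ w0 ((F j).eval₂ (algebraMap k (G k σ)) Xm) ≤
        vw σ w0 ((F j0).eval₂ (algebraMap k (G k σ)) Xm) := hj0 j
    rw [hm0] at h4
    exact (mul_le_mul_left h4 _).trans h3.le
  · intro j
    show gm σ (fun t => (F j).eval (fun i => x i t)) = _
    rw [neg_add, neg_neg, pw_add e h.ne, hf j, pw_neg e h.ne (fun _ => (dF j : ℤ) * (M : ℤ)),
      pw_nsmul h.ne (fun _ => (M : ℤ)) (dF j), ← hE0, pw_neg e h.ne a0]
    have h5 : pw e a0 ≠ 0 := h.pw_ne _
    field_simp
  · intro w1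
    refine h.lt w1 _ ?_
    rw [sum_neg]
    linarith
  · refine hFs.mono ?_
    have h2 : ∀ᶠ t in (σ.𝒰 : Filter ℕ), ∀ j, rep (gm σ (fun t => (F j).eval (fun i => x i t))) t =
        (F j).eval (fun i => x i t) := by
      rw [Filter.eventually_all]
      exact fun j => rep_gm _
    filter_upwards [h2] with t ht
    have h3 : (fun j => rep (gm σ (fun t => (F j).eval (fun i => x i t))) t) =
        fun j => (F j).eval (fun i => x i t) := funext ht
    rw [h3]

/-- **The main step.** -/
theorem core (h : Bet e β) {r : ℕ} (GG : Set (MvPolynomial (Fin (n + 1)) k))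
    (hGG : ∀ g ∈ GG, ∃ d, g.IsHomogeneous d)
    (F : Fin w → MvPolynomial (Fin (n + 1)) k) (hF : ∀ j, ∃ d, 0 < d ∧ (F j).IsHomogeneous d)
    (H : Fin r → MvPolynomial (Fin (n + 1)) k) (hH : ∀ l, ∃ d, (H l).IsHomogeneous d)
    (x : Fin (n + 1) → ℕ → k) {κ : Type} [Fintype κ] (A : Fin (n + 1) → κ → FF k σ)
    (nn : κ → Fin s → ℤ) (hnn : ∀ q, 0 ≤ ∑ i, (nn q i : ℝ) * β i)
    (hx : ∀ i, gm σ (x i) = ∑ q, (A i q : G k σ) * pw e (nn q))
    (hg : ∀ g ∈ GG, ∀ t, g.eval (fun i => x i t) = 0)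
    (hFx : ∀ t, ∃ j, (F j).eval (fun i => x i t) ≠ 0)
    (hFs : Sm σ fun t => -ho (Si k) fun j => (F j).eval (fun i => x i t))
    (hHx : ∀ t, ∃ l, (H l).eval (fun i => x i t) ≠ 0) :
    HasLine GG F H ∨ ∀ i, gm σ (x i) = ∑ q with nn q = 0, (A i q : G k σ) := by
  classical
  obtain ⟨w0⟩ : Nonempty (InfinitePlace k) := inferInstance
  obtain ⟨M, hM⟩ : ∃ M : ℕ, ∀ q i, 0 ≤ nn q i + M := by
    refine ⟨∑ q, ∑ i, (nn q i).natAbs, fun q i => ?_⟩
    have h1 : (nn q i).natAbs ≤ ∑ i, (nn q i).natAbs :=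
      Finset.single_le_sum (f := fun i => (nn q i).natAbs) (fun _ _ => Nat.zero_le _)
        (Finset.mem_univ i)
    have h2 : ∑ i, (nn q i).natAbs ≤ ∑ q, ∑ i, (nn q i).natAbs :=
      Finset.single_le_sum (f := fun q => ∑ i, (nn q i).natAbs) (fun _ _ => Nat.zero_le _)
        (Finset.mem_univ q)
    have h3 : -(nn q i) ≤ ((nn q i).natAbs : ℤ) := by omega
    have h4 : ((nn q i).natAbs : ℤ) ≤ ((∑ q, ∑ i, (nn q i).natAbs : ℕ) : ℤ) := by
      exact_mod_cast h1.trans h2
    omega
  set E0 : G k σ := pw e (fun _ => (M : ℤ)) with hE0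
  have hE00 : E0 ≠ 0 := h.pw_ne _
  let m' : κ → Fin s →₀ ℕ := fun q => Finsupp.equivFunOnFinite.symm fun i => (nn q i + M).toNat
  have hm' : ∀ q, zz (m' q) = nn q + fun _ => (M : ℤ) := by
    intro q
    funext i
    show (((nn q i + M).toNat : ℕ) : ℤ) = nn q i + M
    exact Int.toNat_of_nonneg (hM q i)
  let R := MvPolynomial (Fin s) (FF k σ)
  let φ : Fin (n + 1) → R := fun i => ∑ q, MvPolynomial.monomial (m' q) (A i q)
  let Xm : Fin (n + 1) → G k σ := fun i => ∑ q, (A i q : G k σ) * pw e (-nn q)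
  have hφ : ∀ i, evg e (φ i) = E0 * gm σ (x i) := by
    intro i
    show evg e (∑ q, MvPolynomial.monomial (m' q) (A i q)) = _
    rw [map_sum, hx, Finset.mul_sum]
    refine Finset.sum_congr rfl fun q _ => ?_
    rw [evg_monomial, prod_zz, hm', pw_add e h.ne]
    ring
  have hφm : ∀ i, evg (fun i => (e i)⁻¹) (φ i) = E0⁻¹ * Xm i := by
    intro i
    show evg (fun i => (e i)⁻¹) (∑ q, MvPolynomial.monomial (m' q) (A i q)) =
      E0⁻¹ * ∑ q, (A i q : G k σ) * pw e (-nn q)
    rw [map_sum, Finset.mul_sum]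
    refine Finset.sum_congr rfl fun q _ => ?_
    rw [evg_monomial, prod_inv_zz, hm', neg_add, pw_add e h.ne, pw_neg e h.ne fun _ => (M : ℤ)]
    ring
  let κ0 : k →+* R := MvPolynomial.C.comp (algebraMap k (FF k σ))
  have hκ0 : ∀ e' : Fin s → G k σ, (evg e').comp κ0 = algebraMap k (G k σ) := by
    intro e'
    refine RingHom.ext fun z => ?_
    show evg e' (MvPolynomial.C (algebraMap k (FF k σ) z)) = _
    rw [evg_C]
    rfl
  have hev : ∀ (g : MvPolynomial (Fin (n + 1)) k) (d : ℕ), g.IsHomogeneous d →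
      evg e (g.eval₂ κ0 φ) = E0 ^ d * gm σ (fun t => g.eval (fun i => x i t)) := by
    intro g d hg
    rw [MvPolynomial.hom_eval₂, hκ0]
    have h2 : (fun i => (evg e) (φ i)) = fun i => E0 * gm σ (x i) := by
      funext i
      exact hφ i
    rw [h2, eval₂_smul _ g d hg, eval_gm]
  have hevm : ∀ (g : MvPolynomial (Fin (n + 1)) k) (d : ℕ), g.IsHomogeneous d →
      evg (fun i => (e i)⁻¹) (g.eval₂ κ0 φ) * E0 ^ d = g.eval₂ (algebraMap k (G k σ)) Xm := by
    intro g d hg
    rw [MvPolynomial.hom_eval₂, hκ0]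
    have h2 : (fun i => (evg (fun i => (e i)⁻¹)) (φ i)) = fun i => E0⁻¹ * Xm i := by
      funext i
      exact hφm i
    rw [h2, eval₂_smul _ g d hg, inv_pow]
    field_simp
  choose dF hdF0 hdF using hF
  let f : Fin w → R := fun j => (F j).eval₂ κ0 φ
  have hf : ∀ j, evg e (f j) = E0 ^ dF j * gm σ (fun t => (F j).eval (fun i => x i t)) :=
    fun j => hev _ _ (hdF j)
  have hfm : ∀ j, evg (fun i => (e i)⁻¹) (f j) * E0 ^ dF j =
      (F j).eval₂ (algebraMap k (G k σ)) Xm := fun j => hevm _ _ (hdF j)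
  have hXm : ∀ w0 : InfinitePlace k, ∀ i, vw σ w0 (Xm i) ≤ 1 := by
    intro w0 i
    refine Valuation.map_sum_le _ fun q _ => ?_
    rw [map_mul]
    refine mul_le_one' (val_FF_le _ (A i q).2) ?_
    rw [h.le_one_iff, sum_neg]
    linarith [hnn q]
  -- weights
  obtain ⟨l, hl⟩ := exists_weights β h.pos nn
  have hlw : ∀ q, 0 ≤ ∑ i, nn q i * (l i : ℤ) ∧
      (∑ i, nn q i * (l i : ℤ) = 0 → nn q = 0) := by
    intro q
    rcases (hnn q).lt_or_eq with h1 | h1
    · have h2 := hl q h1
      exact ⟨h2.le, fun h3 => absurd h3 h2.ne'⟩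
    · have h2 := h.inj (nn q) h1.symm
      refine ⟨?_, fun _ => h2⟩
      rw [h2]
      simp
  let lw : κ → ℕ := fun q => (∑ i, nn q i * (l i : ℤ)).toNat
  let W : ℕ := M * ∑ i, l i
  have hwgt : ∀ q, wgt l (m' q) = lw q + W := by
    intro q
    have hWz : ((W : ℕ) : ℤ) = ∑ i, (M : ℤ) * (l i : ℤ) := by
      show ((M * ∑ i, l i : ℕ) : ℤ) = _
      push_cast
      rw [Finset.mul_sum]
    have hlz : ((lw q : ℕ) : ℤ) = ∑ i, nn q i * (l i : ℤ) := Int.toNat_of_nonneg (hlw q).1
    have h1 : ((wgt l (m' q) : ℕ) : ℤ) = ((lw q + W : ℕ) : ℤ) := by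
      unfold wgt
      push_cast
      rw [hlz, hWz, ← Finset.sum_add_distrib]
      refine Finset.sum_congr rfl fun i _ => ?_
      have h2 : ((m' q i : ℕ) : ℤ) = nn q i + M := congrFun (hm' q) i
      rw [h2]
      ring
    exact_mod_cast h1
  -- the field
  let L := AlgebraicClosure (FractionRing R)
  let ρ : R →+* L := (algebraMap (FractionRing R) L).comp (algebraMap R (FractionRing R))
  have hρ : Function.Injective ρ :=
    (algebraMap (FractionRing R) L).injective.comp (IsFractionRing.injective R (FractionRing R))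
  let P : Fin (n + 1) → Polynomial L := fun i =>
    ∑ q, Polynomial.C (ρ (MvPolynomial.monomial (m' q) (A i q))) * Polynomial.X ^ lw q
  let τ : L → R →+* L := fun t => (Polynomial.eval₂RingHom ρ t).comp (Th l)
  have hτP : ∀ t i, t ^ W * (P i).eval t = τ t (φ i) := by
    intro t i
    show t ^ W * (∑ q, Polynomial.C (ρ (MvPolynomial.monomial (m' q) (A i q))) *
      Polynomial.X ^ lw q).eval t = (Th l (∑ q, MvPolynomial.monomial (m' q) (A i q))).eval₂ ρ t
    rw [map_sum, Polynomial.eval_finsetSum, Polynomial.eval₂_finsetSum, Finset.mul_sum]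
    refine Finset.sum_congr rfl fun q _ => ?_
    rw [Th_monomial, Polynomial.eval_mul, Polynomial.eval_C, Polynomial.eval_pow,
      Polynomial.eval_X, Polynomial.eval₂_mul, Polynomial.eval₂_C, Polynomial.eval₂_pow,
      Polynomial.eval₂_X, hwgt, pow_add]
    ring
  have hτ : ∀ (t : L) (g : MvPolynomial (Fin (n + 1)) k) (d : ℕ), g.IsHomogeneous d →
      (t ^ W) ^ d * g.eval₂ (ρ.comp κ0) (fun i => (P i).eval t) = τ t (g.eval₂ κ0 φ) := by
    intro t g d hg
    rw [MvPolynomial.hom_eval₂, ← eval₂_smul _ g d hg]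
    have h1 : (τ t).comp κ0 = ρ.comp κ0 := by
      refine RingHom.ext fun z => ?_
      show (Th l (MvPolynomial.C (algebraMap k (FF k σ) z))).eval₂ ρ t = _
      rw [Th_C, Polynomial.eval₂_C]
      rfl
    have h2 : (fun i => (τ t) (φ i)) = fun i => t ^ W * (P i).eval t := by
      funext i
      exact (hτP t i).symm
    rw [h1, h2]
  have hτ1 : ∀ q : R, τ 1 q = ρ q := by
    intro q
    have h1 : τ 1 = ρ := by
      apply MvPolynomial.ringHom_ext
      · intro z
        show (Th l (MvPolynomial.C z)).eval₂ ρ 1 = _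
        rw [Th_C, Polynomial.eval₂_C]
      · intro i
        show (Th l (MvPolynomial.X i)).eval₂ ρ 1 = _
        rw [Th_X]
        simp
    rw [h1]
  have hP1 : ∀ i, (P i).eval 1 = ρ (φ i) := by
    intro i
    rw [← hτ1, ← hτP, one_pow, one_mul]
  -- the value at zero
  let Cc : Fin (n + 1) → FF k σ := fun i => ∑ q with nn q = 0, A i q
  have hP0 : ∀ i, (P i).eval 0 = ρ (MvPolynomial.monomial (cM s M) 1) *
      ρ (MvPolynomial.C (Cc i)) := by
    intro i
    rw [← map_mul, mul_comm, MvPolynomial.C_mul_monomial, mul_one]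
    show (∑ q, Polynomial.C (ρ (MvPolynomial.monomial (m' q) (A i q))) *
      Polynomial.X ^ lw q).eval 0 = ρ (MvPolynomial.monomial (cM s M) (∑ q with nn q = 0, A i q))
    rw [Polynomial.eval_finsetSum, map_sum, map_sum, Finset.sum_filter]
    refine Finset.sum_congr rfl fun q _ => ?_
    rw [Polynomial.eval_mul, Polynomial.eval_C, Polynomial.eval_pow, Polynomial.eval_X]
    split_ifs with h1
    · have h2 : lw q = 0 := by
        show (∑ i, nn q i * (l i : ℤ)).toNat = 0
        rw [h1]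
        simp
      have h3 : m' q = cM s M := by
        apply zz_inj
        rw [hm', h1, zero_add]
        rfl
      rw [h2, pow_zero, mul_one, h3]
    · have h2 : lw q ≠ 0 := by
        intro h3
        apply h1
        apply (hlw q).2
        have h4 := (hlw q).1
        have h5 : (∑ i, nn q i * (l i : ℤ)).toNat = 0 := h3
        omega
      rw [zero_pow h2, mul_zero]
  -- the equations
  have hG0 : ∀ g ∈ GG, ∀ t : L, g.eval₂ (ρ.comp κ0) (fun i => (P i).eval t) = 0 := by
    intro g hgG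
    obtain ⟨d, hd⟩ := hGG g hgG
    have h1 : g.eval₂ κ0 φ = 0 := by
      apply h.evg_inj
      rw [hev g d hd]
      have h2 : (fun t => g.eval (fun i => x i t)) = fun _ => 0 := by
        funext t
        exact hg g hgG t
      rw [h2]
      have h3 : gm σ (fun _ : ℕ => (0 : k)) = 0 := map_zero (gm σ)
      rw [h3, mul_zero]
    have h4 : g.eval₂ (Polynomial.C.comp (ρ.comp κ0)) P = 0 := by
      apply poly_zero
      intro t ht
      rw [eval_eval₂]
      have h5 := hτ t g d hd
      rw [h1, map_zero] at h5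
      exact (mul_eq_zero.1 h5).resolve_left (pow_ne_zero _ (pow_ne_zero _ ht))
    intro t
    rw [← eval_eval₂, h4, Polynomial.eval_zero]
  -- the boundary
  have hgmF : ∃ j1, gm σ (fun t => (F j1).eval (fun i => x i t)) ≠ 0 := by
    choose jt hjt using hFx
    obtain ⟨j1, -, hj1⟩ := const_of_finite (σ := σ) jt Set.univ Set.finite_univ
      (Eventually.of_forall fun _ => Set.mem_univ _)
    refine ⟨j1, ?_⟩
    rw [gm_ne]
    filter_upwards [hj1] with t ht
    rw [← ht]
    exact hjt t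
  have hF0 : ∀ t : L, ∃ j, (F j).eval₂ (ρ.comp κ0) (fun i => (P i).eval t) ≠ 0 := by
    intro t
    by_contra hno
    push Not at hno
    by_cases ht : t = 0
    · -- the limit point
      subst ht
      have h1 : ∀ j, (F j).eval₂ (algebraMap k (FF k σ)) Cc = 0 := by
        intro j
        have h2 := hno j
        have h3 : (fun i => (P i).eval 0) = fun i => ρ (MvPolynomial.monomial (cM s M) 1) *
            ρ (MvPolynomial.C (Cc i)) := funext hP0
        rw [h3, eval₂_smul _ _ _ (hdF j)] at h2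
        have h4 : ρ (MvPolynomial.monomial (cM s M) 1) ≠ 0 := by
          rw [Ne, map_eq_zero_iff ρ hρ, MvPolynomial.monomial_eq_zero]
          exact one_ne_zero
        have h5 := (mul_eq_zero.1 h2).resolve_left (pow_ne_zero _ h4)
        have h6 : (F j).eval₂ (ρ.comp κ0) (fun i => ρ (MvPolynomial.C (Cc i))) =
            (ρ.comp MvPolynomial.C) ((F j).eval₂ (algebraMap k (FF k σ)) Cc) := by
          rw [MvPolynomial.hom_eval₂]
          rfl
        rw [h6] at h5
        have h7 : ρ (MvPolynomial.C ((F j).eval₂ (algebraMap k (FF k σ)) Cc)) = 0 := h5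
        rw [map_eq_zero_iff ρ hρ, MvPolynomial.C_eq_zero] at h7
        exact h7
      refine zero_contra h x Xm M F dF f hf hfm hFx hFs w0 fun j => ?_
      -- the residue
      let V := OO σ (av (Sum.inl w0 : Pl k))
      let ι0 : FF k σ →+* V := (FF k σ).subtype.codRestrict V.toSubring fun c =>
        FF_mem_OO (Sum.inl w0) c.2
      let XV : Fin (n + 1) → V := fun i => ⟨Xm i, (V.valuation_le_one_iff _).1 (hXm w0 i)⟩
      let res := IsLocalRing.residue V
      have hres : ∀ i, res (XV i) = res (ι0 (Cc i)) := by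
        intro i
        rw [← sub_eq_zero, ← map_sub]
        refine (IsLocalRing.residue_eq_zero_iff _).2 ?_
        rw [V.valuation_lt_one_iff]
        have h2 : ((XV i - ι0 (Cc i) : V) : G k σ) =
            ∑ q with nn q ≠ 0, (A i q : G k σ) * pw e (-nn q) := by
          have h3 : ((XV i - ι0 (Cc i) : V) : G k σ) =
              ∑ q, (A i q : G k σ) * pw e (-nn q) - ((∑ q with nn q = 0, A i q : FF k σ) :
                G k σ) := rfl
          rw [h3, ← Finset.sum_filter_add_sum_filter_not Finset.univ (fun q => nn q = 0)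
            (fun q => (A i q : G k σ) * pw e (-nn q))]
          have h4 : ∑ q with nn q = 0, (A i q : G k σ) * pw e (-nn q) =
              ((∑ q with nn q = 0, A i q : FF k σ) : G k σ) := by
            rw [AddSubmonoidClass.coe_finsetSum]
            refine Finset.sum_congr rfl fun q hq => ?_
            rw [(Finset.mem_filter.1 hq).2, neg_zero, pw_zero e h.ne, mul_one]
          rw [h4]
          ring
        rw [h2]
        refine Valuation.map_sum_lt _ one_ne_zero fun q hq => ?_
        rw [map_mul]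
        have h3 : vw σ w0 (pw e (-nn q)) < 1 := by
          apply h.lt_one
          rw [sum_neg]
          have h4 := lt_of_le_of_ne (hnn q) fun h5 => (Finset.mem_filter.1 hq).2
            (h.inj _ h5.symm)
          linarith
        exact lt_of_le_of_lt ((mul_le_mul_left (val_FF_le _ (A i q).2) _).trans (one_mul _).le) h3
      have h8 : res ((F j).eval₂ (ι0.comp (algebraMap k (FF k σ))) XV) = 0 := by
        rw [MvPolynomial.hom_eval₂]
        have h9 : (fun i => res (XV i)) = fun i => res (ι0 (Cc i)) := funext hres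
        rw [h9]
        have h10 : (F j).eval₂ (res.comp (ι0.comp (algebraMap k (FF k σ))))
            (fun i => res (ι0 (Cc i))) = (res.comp ι0) ((F j).eval₂ (algebraMap k (FF k σ)) Cc) := by
          rw [MvPolynomial.hom_eval₂]
          rfl
        rw [h10, h1 j, map_zero]
      have h9 := (IsLocalRing.residue_eq_zero_iff _).1 h8
      rw [V.valuation_lt_one_iff] at h9
      have h10 : (((F j).eval₂ (ι0.comp (algebraMap k (FF k σ))) XV : V) : G k σ) =
          (F j).eval₂ (algebraMap k (G k σ)) Xm := by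
        have h11 := MvPolynomial.hom_eval₂ (F j) (ι0.comp (algebraMap k (FF k σ)))
          (V.subtype) XV
        have h12 : (((F j).eval₂ (ι0.comp (algebraMap k (FF k σ))) XV : V) : G k σ) =
          V.subtype ((F j).eval₂ (ι0.comp (algebraMap k (FF k σ))) XV) := rfl
        rw [h12, h11]
        rfl
      rw [h10] at h9
      exact h9
    · obtain ⟨j1, hj1⟩ := hgmF
      have hf1 : f j1 ≠ 0 := by
        intro h0
        have h1 := hf j1
        rw [h0, map_zero] at h1
        exact mul_ne_zero (pow_ne_zero _ hE00) hj1 h1.symm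
      have hroot : ∀ j, (Th l (f j)).eval₂ ρ t = 0 := by
        intro j
        have h1 := hτ t (F j) (dF j) (hdF j)
        rw [hno j, mul_zero] at h1
        exact h1.symm
      obtain ⟨q, hq, hqm⟩ := exists_factor l ρ hρ t ht f j1 hf1 hroot
      exact factor_contra h x φ Xm M F dF f hf hfm hXm hFx hFs q hq hqm
  by_cases hnc : ∃ s t : L, ∃ i j, (P i).eval s * (P j).eval t ≠ (P j).eval s * (P i).eval t
  · left
    refine ⟨L, inferInstance, inferInstance, ρ.comp κ0, P, fun t => ⟨fun g hgG => hG0 g hgG t,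
      hF0 t⟩, hnc, 1, ?_⟩
    choose dH hdH using hH
    choose lt hlt using hHx
    obtain ⟨l1, -, hl1⟩ := const_of_finite (σ := σ) lt Set.univ Set.finite_univ
      (Eventually.of_forall fun _ => Set.mem_univ _)
    refine ⟨l1, ?_⟩
    intro h0
    have h5 := hτ 1 (H l1) (dH l1) (hdH l1)
    rw [h0, mul_zero, hτ1] at h5
    have h1 : (H l1).eval₂ κ0 φ = 0 := hρ (by rw [← h5, map_zero])
    have h2 := hev (H l1) (dH l1) (hdH l1)
    rw [h1, map_zero] at h2
    have h3 := (mul_eq_zero.1 h2.symm).resolve_left (pow_ne_zero _ hE00)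
    have h4 : gm σ (fun t => (H l1).eval (fun i => x i t)) ≠ 0 := by
      rw [gm_ne]
      filter_upwards [hl1] with t ht
      rw [← ht]
      exact hlt t
    exact h4 h3
  · right
    push Not at hnc
    obtain ⟨i0, hi0⟩ : ∃ i0, (P i0).eval 0 ≠ 0 := by
      by_contra hno
      push Not at hno
      obtain ⟨j, hj⟩ := hF0 0
      exact hj (zero_form _ (F j) (dF j) (hdF0 j) (hdF j) _ hno)
    have hno0 : ∀ t : L, (P i0).eval t ≠ 0 := by
      intro t ht
      obtain ⟨j, hj⟩ := hF0 t
      refine hj (zero_form _ (F j) (dF j) (hdF0 j) (hdF j) _ fun i => ?_)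
      have h1 := hnc t 0 i0 i
      rw [ht, zero_mul] at h1
      exact (mul_eq_zero.1 h1.symm).resolve_right hi0
    have hdeg : (P i0).degree = 0 := by
      by_contra hd
      obtain ⟨t, ht⟩ := IsAlgClosed.exists_root (P i0) hd
      exact hno0 t ht
    have hc := Polynomial.eq_C_of_degree_eq_zero hdeg
    have hcst : ∀ i t, (P i).eval t = (P i).eval 0 := by
      intro i t
      have h1 := hnc t 0 i i0
      have h2 : (P i0).eval t = (P i0).eval 0 := by
        rw [hc, Polynomial.eval_C, Polynomial.eval_C]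
      rw [h2, mul_comm ((P i0).eval 0)] at h1
      exact mul_right_cancel₀ hi0 h1
    intro i
    have h1 : φ i = MvPolynomial.monomial (cM s M) (Cc i) := by
      apply hρ
      rw [← hP1 i, hcst i 1, hP0 i, ← map_mul, mul_comm, MvPolynomial.C_mul_monomial, mul_one]
    have h2 := hφ i
    rw [h1, evg_monomial, prod_zz] at h2
    have h3 : zz (cM s M) = fun _ => (M : ℤ) := rfl
    rw [h3, mul_comm] at h2
    have h4 := mul_left_cancel₀ hE00 h2
    rw [← h4]
    show ((∑ q with nn q = 0, A i q : FF k σ) : G k σ) = _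
    rw [AddSubmonoidClass.coe_finsetSum]

end core

end Pool.Agent.D0H97.FT
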