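import Pool.Agent.D0H97.FT.Bnd

/-!
Specialisation of a line to a number field.
-/

set_option autoImplicit false
set_option linter.unusedSectionVars false

namespace Pool.Agent.D0H97.FT

open NumberField IsDedekindDomain Height Filter Topology
open Pool.Agent.D0H85.SP (poly_zero eval_eval₂)

/-- the map from the affine line given by the polynomials `P` has its values in the
quasi-projective variety -/
def LineTo {K : Type} [Field K] {n w : ℕ} (G : Set (MvPolynomial (Fin (n + 1)) K))
    (F : Fin w → MvPolynomial (Fin (n + 1)) K) {Ω : Type} [Field Ω] (ψ : K →+* Ω)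
    (P : Fin (n + 1) → Polynomial Ω) : Prop :=
  ∀ t : Ω, (∀ g ∈ G, g.eval₂ ψ (fun i => (P i).eval t) = 0) ∧
    ∃ j, (F j).eval₂ ψ (fun i => (P i).eval t) ≠ 0

/-- the map is not constant -/
def NonconstantL {n : ℕ} {Ω : Type} [Field Ω] (P : Fin (n + 1) → Polynomial Ω) : Prop :=
  ∃ s t : Ω, ∃ i j, (P i).eval s * (P j).eval t ≠ (P j).eval s * (P i).eval t

/-- the map has its values in the zeros of the `H l` -/
def InsideL {K : Type} [Field K] {n r : ℕ} (H : Fin r → MvPolynomial (Fin (n + 1)) K)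
    {Ω : Type} [Field Ω] (ψ : K →+* Ω) (P : Fin (n + 1) → Polynomial Ω) : Prop :=
  ∀ t : Ω, ∀ l, (H l).eval₂ ψ (fun i => (P i).eval t) = 0

/-- a polynomial without roots is a unit -/
theorem no_root_unit {Ω : Type} [Field Ω] [IsAlgClosed Ω] (d : Polynomial Ω)
    (h : ∀ t : Ω, d.eval t ≠ 0) : d ∣ 1 := by
  have h1 : d.degree = 0 := by
    by_contra hd
    obtain ⟨t, ht⟩ := IsAlgClosed.exists_root d hd
    exact h t ht
  exact isUnit_iff_dvd_one.1 (Polynomial.isUnit_iff_degree_eq_zero.2 h1)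

/-- a curve over the field `L`, with certificates -/
structure LCert {K : Type} [Field K] {n w r : ℕ} (G : Set (MvPolynomial (Fin (n + 1)) K))
    (F : Fin w → MvPolynomial (Fin (n + 1)) K) (H : Fin r → MvPolynomial (Fin (n + 1)) K)
    {L : Type} [Field L] (ψ : K →+* L) (P : Fin (n + 1) → Polynomial L)
    (B : Fin w → Polynomial L) : Prop where
  eqn : ∀ g ∈ G, g.eval₂ (Polynomial.C.comp ψ) P = 0
  bez : ∑ j, B j * (F j).eval₂ (Polynomial.C.comp ψ) P = 1
  non : NonconstantL P
  out : ¬ InsideL H ψ P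

/-- **Specialisation.** -/
theorem specialise {K : Type} [Field K] [NumberField K] {n w r : ℕ}
    (G : Set (MvPolynomial (Fin (n + 1)) K)) (F : Fin w → MvPolynomial (Fin (n + 1)) K)
    (H : Fin r → MvPolynomial (Fin (n + 1)) K) {Ω : Type} [Field Ω] [IsAlgClosed Ω]
    (ψ : K →+* Ω) (P : Fin (n + 1) → Polynomial Ω) (h1 : LineTo G F ψ P) (h2 : NonconstantL P)
    (h3 : ¬ InsideL H ψ P) :
    ∃ (L : Type) (_ : Field L) (_ : NumberField L) (_ : Algebra K L)
      (P' : Fin (n + 1) → Polynomial L) (B : Fin w → Polynomial L),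
      LCert G F H (algebraMap K L) P' B := by
  classical
  let _ : Algebra K Ω := ψ.toAlgebra
  have hψ : algebraMap K Ω = ψ := rfl
  -- the polynomial identities
  have hG : ∀ g ∈ G, g.eval₂ (Polynomial.C.comp ψ) P = 0 := by
    intro g hg
    apply poly_zero
    intro t _
    rw [eval_eval₂]
    exact (h1 t).1 g hg
  obtain ⟨B, hB⟩ : ∃ (B : Fin w → Polynomial Ω),
      ∑ j, B j * (F j).eval₂ (Polynomial.C.comp ψ) P = 1 := by
    let I : Ideal (Polynomial Ω) := Ideal.span (Set.range fun j =>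
      (F j).eval₂ (Polynomial.C.comp ψ) P)
    obtain ⟨d, hd⟩ : ∃ d, I = Ideal.span {d} := by
      have := (IsPrincipalIdealRing.principal I)
      exact this.principal
    have hM := no_root_unit d (by
      intro t h0
      obtain ⟨j, hj⟩ := (h1 t).2
      apply hj
      have h4 : (F j).eval₂ (Polynomial.C.comp ψ) P ∈ I := Ideal.subset_span ⟨j, rfl⟩
      rw [hd, Ideal.mem_span_singleton] at h4
      obtain ⟨y, hy⟩ := h4
      rw [← eval_eval₂, hy, Polynomial.eval_mul, h0, zero_mul])
    have h5 : (1 : Polynomial Ω) ∈ I := by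
      rw [hd, Ideal.mem_span_singleton]
      exact hM
    obtain ⟨B, hB⟩ := (Ideal.mem_span_range_iff_exists_fun).1 h5
    exact ⟨B, hB⟩
  obtain ⟨s, t, i0, j0, hst⟩ := h2
  obtain ⟨t0, l0, hout⟩ : ∃ (t0 : Ω) (l0 : Fin r),
      (H l0).eval₂ ψ (fun i => (P i).eval t0) ≠ 0 := by
    unfold InsideL at h3
    push Not at h3
    exact h3
  set δ : Ω := (P i0).eval s * (P j0).eval t - (P j0).eval s * (P i0).eval t with hδ
  have hδ0 : δ ≠ 0 := sub_ne_zero.2 hst
  set η : Ω := (H l0).eval₂ ψ (fun i => (P i).eval t0) with hη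
  -- the finitely generated algebra
  let T0 : Finset Ω := (Finset.univ.biUnion fun i => (P i).coeffs) ∪
    (Finset.univ.biUnion fun j => (B j).coeffs) ∪ {s, t, t0, δ⁻¹, η⁻¹}
  let A : Subalgebra K Ω := Algebra.adjoin K (T0 : Set Ω)
  have hT : ∀ x ∈ T0, x ∈ A := fun x hx => Algebra.subset_adjoin hx
  have hfin : Algebra.FiniteType K A :=
    (Subalgebra.fg_iff_finiteType A).1 ⟨T0, rfl⟩
  have hlift : ∀ p : Polynomial Ω, (∀ m, p.coeff m ∈ A) →
      ∃ q : Polynomial A, q.map (A.val : A →+* Ω) = p := by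
    intro p hp
    have h4 : p ∈ Polynomial.lifts (A.val : A →+* Ω) := by
      rw [Polynomial.lifts_iff_coeff_lifts]
      intro m
      exact ⟨⟨_, hp m⟩, rfl⟩
    exact (Polynomial.mem_lifts _).1 h4
  have hcoeff : ∀ (p : Polynomial Ω), (∀ c ∈ p.coeffs, c ∈ T0) → ∀ m, p.coeff m ∈ A := by
    intro p hp m
    by_cases h0 : p.coeff m = 0
    · rw [h0]
      exact A.zero_mem
    · exact hT _ (hp _ (Polynomial.coeff_mem_coeffs h0))
  choose PA hPA using fun i => hlift (P i) (hcoeff _ fun c hc => by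
    refine Finset.mem_union_left _ (Finset.mem_union_left _ ?_)
    exact Finset.mem_biUnion.2 ⟨i, Finset.mem_univ _, hc⟩)
  choose BA hBA using fun j => hlift (B j) (hcoeff _ fun c hc => by
    refine Finset.mem_union_left _ (Finset.mem_union_right _ ?_)
    exact Finset.mem_biUnion.2 ⟨j, Finset.mem_univ _, hc⟩)
  have hmem : ∀ x ∈ ({s, t, t0, δ⁻¹, η⁻¹} : Finset Ω), x ∈ A := fun x hx =>
    hT x (Finset.mem_union_right _ hx)
  let sA : A := ⟨s, hmem _ (by simp)⟩
  let tA : A := ⟨t, hmem _ (by simp)⟩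
  let t0A : A := ⟨t0, hmem _ (by simp)⟩
  let δi : A := ⟨δ⁻¹, hmem _ (by simp)⟩
  let ηi : A := ⟨η⁻¹, hmem _ (by simp)⟩
  -- the residue field
  obtain ⟨𝔪, h𝔪⟩ := Ideal.exists_maximal A
  let _ : Field (A ⧸ 𝔪) := Ideal.Quotient.field 𝔪
  have hft : Algebra.FiniteType K (A ⧸ 𝔪) := inferInstance
  have hmf : Module.Finite K (A ⧸ 𝔪) := finite_of_finite_type_of_isJacobsonRing K (A ⧸ 𝔪)
  have hnf : NumberField (A ⧸ 𝔪) := NumberField.of_module_finite K (A ⧸ 𝔪)
  let π : A →+* (A ⧸ 𝔪) := Ideal.Quotient.mk 𝔪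
  have hval : Function.Injective (A.val : A →+* Ω) := Subtype.val_injective
  have hcomp : (Polynomial.mapRingHom (A.val : A →+* Ω)).comp (Polynomial.C.comp (algebraMap K A)) =
      Polynomial.C.comp ψ := by
    refine RingHom.ext fun z => ?_
    show Polynomial.map (A.val : A →+* Ω) (Polynomial.C (algebraMap K A z)) = _
    rw [Polynomial.map_C]
    rfl
  have hcompπ : (Polynomial.mapRingHom π).comp (Polynomial.C.comp (algebraMap K A)) =
      Polynomial.C.comp (algebraMap K (A ⧸ 𝔪)) := by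
    refine RingHom.ext fun z => ?_
    show Polynomial.map π (Polynomial.C (algebraMap K A z)) = _
    rw [Polynomial.map_C]
    rfl
  have hup : ∀ g : MvPolynomial (Fin (n + 1)) K,
      (g.eval₂ (Polynomial.C.comp (algebraMap K A)) PA).map (A.val : A →+* Ω) =
        g.eval₂ (Polynomial.C.comp ψ) P := by
    intro g
    have h4 := MvPolynomial.hom_eval₂ g (Polynomial.C.comp (algebraMap K A))
      (Polynomial.mapRingHom (A.val : A →+* Ω)) PA
    rw [hcomp] at h4
    have h5 : (fun i => (Polynomial.mapRingHom (A.val : A →+* Ω)) (PA i)) = P := by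
      funext i
      exact hPA i
    rw [h5] at h4
    exact h4
  have hdown : ∀ g : MvPolynomial (Fin (n + 1)) K,
      (g.eval₂ (Polynomial.C.comp (algebraMap K A)) PA).map π =
        g.eval₂ (Polynomial.C.comp (algebraMap K (A ⧸ 𝔪))) fun i => (PA i).map π := by
    intro g
    have h4 := MvPolynomial.hom_eval₂ g (Polynomial.C.comp (algebraMap K A))
      (Polynomial.mapRingHom π) PA
    rw [hcompπ] at h4
    exact h4
  have hunit : ∀ x y : A, (x : Ω) * y = 1 → π x ≠ 0 := by
    intro x y hxy h0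
    have h4 : x * y = 1 := Subtype.ext hxy
    have h5 := congrArg π h4
    rw [map_mul, h0, zero_mul, map_one] at h5
    exact zero_ne_one h5
  have hevA : ∀ (p : Polynomial A) (x : A), ((p.eval x : A) : Ω) =
      (p.map (A.val : A →+* Ω)).eval (x : Ω) := by
    intro p x
    exact (Polynomial.eval_map_apply (A.val : A →+* Ω) x).symm
  have hevπ : ∀ (p : Polynomial A) (x : A), π (p.eval x) = (p.map π).eval (π x) := by
    intro p x
    exact (Polynomial.eval_map_apply π x).symm
  refine ⟨A ⧸ 𝔪, inferInstance, hnf, inferInstance, fun i => (PA i).map π,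
    fun j => (BA j).map π, ?_, ?_, ?_, ?_⟩
  · intro g hg
    rw [← hdown]
    have h4 : g.eval₂ (Polynomial.C.comp (algebraMap K A)) PA = 0 := by
      apply Polynomial.map_injective _ hval
      rw [hup, hG g hg, Polynomial.map_zero]
    rw [h4, Polynomial.map_zero]
  · have h4 : ∑ j, BA j * (F j).eval₂ (Polynomial.C.comp (algebraMap K A)) PA = 1 := by
      apply Polynomial.map_injective _ hval
      rw [Polynomial.map_sum, Polynomial.map_one, ← hB]
      refine Finset.sum_congr rfl fun j _ => ?_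
      rw [Polynomial.map_mul, hup, hBA]
    have h5 := congrArg (Polynomial.map π) h4
    rw [Polynomial.map_sum, Polynomial.map_one] at h5
    rw [← h5]
    refine Finset.sum_congr rfl fun j _ => ?_
    rw [Polynomial.map_mul, hdown]
  · refine ⟨π sA, π tA, i0, j0, ?_⟩
    rw [← sub_ne_zero, ← hevπ, ← hevπ, ← hevπ, ← hevπ, ← map_mul, ← map_mul, ← map_sub]
    refine hunit _ δi ?_
    have h4 : (((PA i0).eval sA * (PA j0).eval tA - (PA j0).eval sA * (PA i0).eval tA : A) : Ω) =
        δ := by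
      push_cast
      rw [hevA, hevA, hevA, hevA, hPA, hPA]
    rw [h4]
    exact mul_inv_cancel₀ hδ0
  · intro hin
    apply hunit ((((H l0).eval₂ (Polynomial.C.comp (algebraMap K A)) PA).eval t0A)) ηi
    · rw [hevA, hup]
      show ((H l0).eval₂ (Polynomial.C.comp ψ) P).eval t0 * η⁻¹ = 1
      rw [eval_eval₂]
      exact mul_inv_cancel₀ hout
    · rw [hevπ, hdown]
      have h4 := hin (π t0A) l0
      rw [← h4, eval_eval₂]

end Pool.Agent.D0H97.FT
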