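import Pool.Agent.D0H97.FT.Bet

/-!
The elimination of one variable.
-/

set_option autoImplicit false
set_option linter.unusedSectionVars false

namespace Pool.Agent.D0H97.FT

open NumberField IsDedekindDomain Height Filter Topology
open Pool.Agent.W180.OP (Pl av wt fv fv_support_finite wt_nonneg)
open Pool.Agent.K1H83.VN
open Pool.Agent.D0H85.SP (pw pw_ne pw_add pw_neg pw_zero pw_zsmul pw_sum)

variable {k : Type} [Field k] [NumberField k] {σ : Sc} {N n w r : ℕ} {A : Set ℕ}

/-- **The step.** -/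
theorem step (hA : Coherent A) (GG : Set (MvPolynomial (Fin (n + 1)) k))
    (hGG : ∀ g ∈ GG, ∃ d, g.IsHomogeneous d)
    (F : Fin w → MvPolynomial (Fin (n + 1)) k) (hF : ∀ j, ∃ d, 0 < d ∧ (F j).IsHomogeneous d)
    (H : Fin r → MvPolynomial (Fin (n + 1)) k) (hH : ∀ l, ∃ d, (H l).IsHomogeneous d)
    (x : Fin (n + 1) → ℕ → k) {κ : Type} [Fintype κ] (a : Fin (n + 1) → κ → ℕ → k)
    (α : κ → Fin N → ℕ) (s : Fin N → ℕ → ℕ) (hs : ∀ j t, s j t ≠ 0) (hsA : ∀ j t, s j t ∈ A)
    (hL : ∀ᶠ t in (σ.𝒰 : Filter ℕ), ∀ j, Real.log (s j t) ≤ σ.L t)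
    (ha : ∀ i q, Sm σ fun t => logHeight₁ (a i q t))
    (hx : ∀ i, ∀ᶠ t in (σ.𝒰 : Filter ℕ), x i t = ∑ q, a i q t * ∏ j, (s j t : k) ^ α q j)
    (hg : ∀ g ∈ GG, ∀ t, g.eval (fun i => x i t) = 0)
    (hFx : ∀ t, ∃ j, (F j).eval (fun i => x i t) ≠ 0)
    (hFs : Sm σ fun t => -ho (Si k) fun j => (F j).eval (fun i => x i t))
    (hHx : ∀ t, ∃ l, (H l).eval (fun i => x i t) ≠ 0)
    (j0 : Fin N) (hj0 : ¬ Sm σ fun t => Real.log (s j0 t)) :
    HasLine GG F H ∨ ∃ J : Finset (Fin N), j0 ∈ J ∧ ∀ᶠ t in (σ.𝒰 : Filter ℕ), ∀ i,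
      x i t = ∑ q, a i q t * ∏ j, ((if j ∈ J then 0 else s j t : ℕ) : k) ^ α q j := by
  classical
  obtain ⟨ρ, e, β, m, hbet, hm, hmβ, hm0⟩ := exists_bet (k := k) (σ := σ) hA s hs hsA hL
  set U : Fin N → G k σ := gs k σ s with hU
  have hU0 : ∀ j, U j ≠ 0 := gs_ne s hs
  let c : Fin N → FF k σ := fun j => ⟨U j / pw e (m j), hm j⟩
  have hUc : ∀ j, U j = (c j : G k σ) * pw e (m j) := by
    intro j
    show U j = U j / pw e (m j) * pw e (m j)
    rw [div_mul_cancel₀ _ (hbet.pw_ne _)]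
  let cc : κ → FF k σ := fun q => ∏ j, c j ^ α q j
  let nn : κ → Fin ρ → ℤ := fun q => ∑ j, (α q j : ℤ) • m j
  have hmon : ∀ q, ∏ j, U j ^ α q j = (cc q : G k σ) * pw e (nn q) := by
    intro q
    have h1 : ((cc q : FF k σ) : G k σ) = ∏ j, (c j : G k σ) ^ α q j := by
      show ((∏ j, c j ^ α q j : FF k σ) : G k σ) = _
      push_cast
      rfl
    have h2 : pw e (nn q) = ∏ j, pw e (m j) ^ α q j := by
      show pw e (∑ j, (α q j : ℤ) • m j) = _
      rw [pw_sum e hbet.ne]
      refine Finset.prod_congr rfl fun j _ => ?_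
      rw [pw_zsmul e hbet.ne, zpow_natCast]
    rw [h1, h2, ← Finset.prod_mul_distrib]
    refine Finset.prod_congr rfl fun j _ => ?_
    rw [hUc j, mul_pow]
  have hnnβ : ∀ q, ∑ i, (nn q i : ℝ) * β i = ∑ j, (α q j : ℝ) * ∑ i, (m j i : ℝ) * β i := by
    intro q
    have h1 : ∀ i, ((nn q i : ℤ) : ℝ) = ∑ j, (α q j : ℝ) * (m j i : ℝ) := by
      intro i
      show (((∑ j, (α q j : ℤ) • m j) i : ℤ) : ℝ) = _
      rw [Finset.sum_apply]
      push_cast
      refine Finset.sum_congr rfl fun j _ => ?_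
      rw [Pi.smul_apply, smul_eq_mul]
      push_cast
      ring
    simp only [h1, Finset.sum_mul, Finset.mul_sum]
    rw [Finset.sum_comm]
    refine Finset.sum_congr rfl fun j _ => Finset.sum_congr rfl fun i _ => ?_
    ring
  have hnn : ∀ q, 0 ≤ ∑ i, (nn q i : ℝ) * β i := by
    intro q
    rw [hnnβ]
    exact Finset.sum_nonneg fun j _ => mul_nonneg (Nat.cast_nonneg _) (hmβ j)
  let Aq : Fin (n + 1) → κ → FF k σ := fun i q => ⟨gm σ (a i q), (gm_mem_FF _).2 (ha i q)⟩ * cc q
  have hgs : ∀ j, U j = gm σ fun t => (s j t : k) := fun j => rfl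
  have hgmx : ∀ i, gm σ (x i) = ∑ q, gm σ (a i q) * ∏ j, U j ^ α q j := by
    intro i
    have h1 : gm σ (x i) = gm σ (fun t => ∑ q, a i q t * ∏ j, (s j t : k) ^ α q j) :=
      (gm_eq _ _).2 (hx i)
    have h2 : (fun t => ∑ q, a i q t * ∏ j, (s j t : k) ^ α q j) =
        ∑ q, a i q * ∏ j, (fun t => (s j t : k)) ^ α q j := by
      funext t
      rw [Finset.sum_apply]
      refine Finset.sum_congr rfl fun q _ => ?_
      rw [Pi.mul_apply, Finset.prod_apply]
      simp only [Pi.pow_apply]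
    rw [h1, h2, map_sum]
    refine Finset.sum_congr rfl fun q _ => ?_
    rw [map_mul, map_prod]
    refine congrArg _ (Finset.prod_congr rfl fun j _ => ?_)
    rw [map_pow, hgs j]
  have hxA : ∀ i, gm σ (x i) = ∑ q, (Aq i q : G k σ) * pw e (nn q) := by
    intro i
    rw [hgmx i]
    refine Finset.sum_congr rfl fun q _ => ?_
    rw [hmon q]
    show gm σ (a i q) * ((cc q : G k σ) * pw e (nn q)) = (gm σ (a i q) * (cc q : G k σ)) *
      pw e (nn q)
    rw [mul_assoc]
  rcases core hbet GG hGG F hF H hH x Aq nn hnn hxA hg hFx hFs hHx with h | h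
  · exact Or.inl h
  right
  let J : Finset (Fin N) := Finset.univ.filter fun j => m j ≠ 0
  have hJ : ∀ j, j ∈ J ↔ m j ≠ 0 := fun j => by
    show j ∈ Finset.univ.filter (fun j => m j ≠ 0) ↔ m j ≠ 0
    rw [Finset.mem_filter]
    exact ⟨fun h => h.2, fun h => ⟨Finset.mem_univ _, h⟩⟩
  refine ⟨J, ?_, ?_⟩
  · rw [hJ]
    intro hm00
    apply hj0
    have h1 := hm0 j0 hm00
    have h2 := (gm_mem_FF (σ := σ) fun t => (s j0 t : k)).1 h1
    refine h2.mono (Eventually.of_forall fun t => ?_)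
    obtain ⟨w0⟩ : Nonempty (InfinitePlace k) := inferInstance
    have h3 : ((s j0 t : ℕ) : k) ≠ 0 := Nat.cast_ne_zero.2 (hs j0 t)
    have h4 := abs_log_le' (Sum.inl w0 : Pl k) _ h3
    rw [inf_nat] at h4
    exact (le_abs_self _).trans h4
  · have hiff : ∀ q, nn q = 0 ↔ ∀ j ∈ J, α q j = 0 := by
      intro q
      constructor
      · intro h0 j hj
        by_contra hα
        have h1 := hnnβ q
        rw [h0] at h1
        have h2 : ∑ j, (α q j : ℝ) * ∑ i, (m j i : ℝ) * β i = 0 := by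
          rw [← h1]
          simp
        have h3 := (Finset.sum_eq_zero_iff_of_nonneg fun j _ =>
          mul_nonneg (Nat.cast_nonneg (α := ℝ) (α q j)) (hmβ j)).1 h2 j (Finset.mem_univ j)
        have h4 := (mul_eq_zero.1 h3).resolve_left (Nat.cast_ne_zero.2 hα)
        exact (hJ j).1 hj (hbet.inj _ h4)
      · intro h0
        show ∑ j, (α q j : ℤ) • m j = 0
        refine Finset.sum_eq_zero fun j _ => ?_
        by_cases hmj : m j = 0
        · rw [hmj, smul_zero]
        · rw [h0 j ((hJ j).2 hmj), Nat.cast_zero, zero_smul]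
    rw [Filter.eventually_all]
    intro i
    have h1 := h i
    have h2 : ∑ q with nn q = 0, (Aq i q : G k σ) =
        gm σ fun t => ∑ q, a i q t * ∏ j, ((if j ∈ J then 0 else s j t : ℕ) : k) ^ α q j := by
      have h3 : (fun t => ∑ q, a i q t * ∏ j, ((if j ∈ J then 0 else s j t : ℕ) : k) ^ α q j) =
          ∑ q, if nn q = 0 then a i q * ∏ j, (fun t => (s j t : k)) ^ α q j else 0 := by
        funext t
        rw [Finset.sum_apply]
        refine Finset.sum_congr rfl fun q _ => ?_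
        by_cases hq : nn q = 0
        · rw [if_pos hq, Pi.mul_apply, Finset.prod_apply]
          congr 1
          refine Finset.prod_congr rfl fun j _ => ?_
          by_cases hj : j ∈ J
          · rw [(hiff q).1 hq j hj, pow_zero, pow_zero]
            rfl
          · rw [if_neg hj]
            rfl
        · rw [if_neg hq]
          have h4 : ∃ j ∈ J, α q j ≠ 0 := by
            by_contra hno
            push Not at hno
            exact hq ((hiff q).2 hno)
          obtain ⟨j, hj, hαj⟩ := h4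
          show _ = (0 : k)
          rw [Finset.prod_eq_zero (Finset.mem_univ j), mul_zero]
          rw [if_pos hj, Nat.cast_zero, zero_pow hαj]
      rw [h3, map_sum, Finset.sum_filter]
      refine Finset.sum_congr rfl fun q _ => ?_
      by_cases hq : nn q = 0
      · rw [if_pos hq, if_pos hq, map_mul, map_prod]
        have h4 : ∏ j, gm σ ((fun t => (s j t : k)) ^ α q j) = ∏ j, U j ^ α q j := by
          refine Finset.prod_congr rfl fun j _ => ?_
          rw [map_pow, hgs j]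
        rw [h4, hmon q, hq, pw_zero e hbet.ne, mul_one]
        rfl
      · rw [if_neg hq, if_neg hq, map_zero]
    rw [h2] at h1
    exact (gm_eq _ _).1 h1

end Pool.Agent.D0H97.FT
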